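import Mathlib

/-!
Sparse halves: fractional relaxation and rounding (helper51).
-/

namespace Pool.Agent.SH51

open Finset

section
variable {V : Type*} [Fintype V] [DecidableEq V] (G : SimpleGraph V) [DecidableRel G.Adj]

/-- The bilinear form of the adjacency matrix (ordered pairs). -/
noncomputable def B (x y : V → ℝ) : ℝ := ∑ u, ∑ v, if G.Adj u v then x u * y v else 0

lemma B_comm (x y : V → ℝ) : B G x y = B G y x := by
  unfold B
  rw [Finset.sum_comm]
  refine Finset.sum_congr rfl fun u _ => Finset.sum_congr rfl fun v _ => ?_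
  by_cases h : G.Adj u v
  · rw [if_pos h, if_pos h.symm]; ring
  · rw [if_neg h, if_neg (fun h' => h h'.symm)]

lemma B_expand (x d : V → ℝ) (s : ℝ) :
    B G (fun v => x v + s * d v) (fun v => x v + s * d v)
      = B G x x + s * (2 * B G x d) + s ^ 2 * B G d d := by
  have h1 : B G (fun v => x v + s * d v) (fun v => x v + s * d v)
      = B G x x + s * (B G x d) + s * (B G d x) + s ^ 2 * B G d d := by
    unfold B
    simp only [Finset.mul_sum]
    rw [← Finset.sum_add_distrib, ← Finset.sum_add_distrib, ← Finset.sum_add_distrib]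
    refine Finset.sum_congr rfl fun u _ => ?_
    rw [← Finset.sum_add_distrib, ← Finset.sum_add_distrib, ← Finset.sum_add_distrib]
    refine Finset.sum_congr rfl fun v _ => ?_
    by_cases h : G.Adj u v
    · simp only [if_pos h]; ring
    · simp only [if_neg h]; ring
  rw [h1, B_comm G d x]; ring

lemma B_mono {x y : V → ℝ} (hx : ∀ v, 0 ≤ x v) (hxy : ∀ v, x v ≤ y v) :
    B G x x ≤ B G y y := by
  unfold B
  refine Finset.sum_le_sum fun u _ => Finset.sum_le_sum fun v _ => ?_
  by_cases h : G.Adj u v
  · rw [if_pos h, if_pos h]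
    exact mul_le_mul (hxy u) (hxy v) (hx v) (le_trans (hx u) (hxy u))
  · rw [if_neg h, if_neg h]

/-- The direction moving weight from `v` to `u`. -/
def dir (u v : V) : V → ℝ := fun w => (if w = u then 1 else 0) - (if w = v then 1 else 0)

lemma B_dir_nonpos {u v : V} : B G (dir u v) (dir u v) ≤ 0 := by
  have h : B G (dir u v) (dir u v)
      = ∑ a, ∑ b, if G.Adj a b then dir u v a * dir u v b else 0 := rfl
  rw [h]
  refine Finset.sum_nonpos fun a _ => Finset.sum_nonpos fun b _ => ?_
  by_cases hab : G.Adj a b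
  · rw [if_pos hab]
    have hne : a ≠ b := G.ne_of_adj hab
    unfold dir
    by_cases h1 : a = u
    · subst h1
      have h2 : b ≠ a := fun h => hne h.symm
      by_cases h3 : a = v
      · subst h3; simp
      · simp only [if_true, if_neg h3, if_neg h2]
        by_cases h4 : b = v
        · simp [h4]
        · simp [h4]
    · by_cases h3 : a = v
      · subst h3
        have h2 : b ≠ a := fun h => hne h.symm
        simp only [if_neg h1, if_true, if_neg h2]
        by_cases h4 : b = u
        · simp [h4]
        · simp [h4]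
      · simp [h1, h3]
  · rw [if_neg hab]

lemma sum_dir {u v : V} : ∑ w, dir u v w = 0 := by
  unfold dir
  rw [Finset.sum_sub_distrib]
  simp

/-- number of fractional coordinates -/
noncomputable def frac (x : V → ℝ) : Finset V := by
  classical exact Finset.univ.filter fun v => x v ≠ 0 ∧ x v ≠ 1

lemma exists_other_frac {x : V → ℝ} (hx : ∀ v, 0 ≤ x v ∧ x v ≤ 1) {m : ℕ}
    (hm : ∑ v, x v = m) {u : V} (hu : x u ≠ 0 ∧ x u ≠ 1) :
    ∃ v, v ≠ u ∧ x v ≠ 0 ∧ x v ≠ 1 := by
  classical
  by_contra hcon
  push Not at hcon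
  have hint : ∀ v, v ≠ u → x v = ((if x v = 0 then 0 else 1 : ℤ) : ℝ) := by
    intro v hv
    by_cases h0 : x v = 0
    · simp [h0]
    · have := hcon v hv h0
      simp [this]
  have hsum : x u = (m : ℝ) - ∑ v ∈ Finset.univ.erase u, x v := by
    rw [← hm, ← Finset.add_sum_erase Finset.univ x (Finset.mem_univ u)]; ring
  have hsum2 : ∑ v ∈ Finset.univ.erase u, x v
      = ((∑ v ∈ Finset.univ.erase u, (if x v = 0 then 0 else 1 : ℤ) : ℤ) : ℝ) := by
    rw [Int.cast_sum]
    refine Finset.sum_congr rfl fun v hv => ?_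
    exact hint v (Finset.ne_of_mem_erase hv)
  rw [hsum2] at hsum
  set k : ℤ := (m : ℤ) - ∑ v ∈ Finset.univ.erase u, (if x v = 0 then 0 else 1 : ℤ) with hk
  have hxk : x u = (k : ℝ) := by rw [hsum, hk]; push_cast; ring
  have h0 : (0 : ℝ) < x u := lt_of_le_of_ne (hx u).1 (Ne.symm hu.1)
  have h1 : x u < 1 := lt_of_le_of_ne (hx u).2 hu.2
  rw [hxk] at h0 h1
  have h0' : (0 : ℤ) < k := by exact_mod_cast h0
  have h1' : k < (1 : ℤ) := by exact_mod_cast h1
  omega

/-- moving weight along `dir u v` inside the box -/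
lemma step_exists {x : V → ℝ} (hx : ∀ v, 0 ≤ x v ∧ x v ≤ 1) {u v : V} (huv : v ≠ u)
    (hu : x u ≠ 0 ∧ x u ≠ 1) (hv : x v ≠ 0 ∧ x v ≠ 1) :
    ∃ y : V → ℝ, (∀ w, 0 ≤ y w ∧ y w ≤ 1) ∧ ∑ w, y w = ∑ w, x w ∧
      B G y y ≤ B G x x ∧ (∀ w, w ≠ u → w ≠ v → y w = x w) ∧
      ((y u = 0 ∨ y u = 1) ∨ (y v = 0 ∨ y v = 1)) := by
  have hu0 : 0 < x u := lt_of_le_of_ne (hx u).1 (Ne.symm hu.1)
  have hu1 : x u < 1 := lt_of_le_of_ne (hx u).2 hu.2
  have hv0 : 0 < x v := lt_of_le_of_ne (hx v).1 (Ne.symm hv.1)
  have hv1 : x v < 1 := lt_of_le_of_ne (hx v).2 hv.2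
  have key : ∀ s : ℝ, s * (2 * B G x (dir u v)) ≤ 0 →
      B G (fun w => x w + s * dir u v w) (fun w => x w + s * dir u v w) ≤ B G x x := by
    intro s hs
    rw [B_expand]
    have h2 : s ^ 2 * B G (dir u v) (dir u v) ≤ 0 :=
      mul_nonpos_of_nonneg_of_nonpos (sq_nonneg s) (B_dir_nonpos G)
    linarith
  have hsum : ∀ s : ℝ, ∑ w, (x w + s * dir u v w) = ∑ w, x w := by
    intro s
    rw [Finset.sum_add_distrib, ← Finset.mul_sum, sum_dir]; ring
  have hyu : ∀ s : ℝ, x u + s * dir u v u = x u + s := by
    intro s; unfold dir; simp [Ne.symm huv]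
  have hyv : ∀ s : ℝ, x v + s * dir u v v = x v - s := by
    intro s; unfold dir; simp [huv]; ring
  have hyw : ∀ s : ℝ, ∀ w, w ≠ u → w ≠ v → x w + s * dir u v w = x w := by
    intro s w h1 h2; unfold dir; simp [h1, h2]
  have box : ∀ s : ℝ, 0 ≤ x u + s → x u + s ≤ 1 → 0 ≤ x v - s → x v - s ≤ 1 →
      ∀ w, 0 ≤ x w + s * dir u v w ∧ x w + s * dir u v w ≤ 1 := by
    intro s h1 h2 h3 h4 w
    by_cases hwu : w = u
    · subst hwu; rw [hyu]; exact ⟨h1, h2⟩
    · by_cases hwv : w = v
      · subst hwv; rw [hyv]; exact ⟨h3, h4⟩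
      · rw [hyw s w hwu hwv]; exact hx w
  rcases le_total (B G x (dir u v)) 0 with hL | hL
  · -- move in the positive direction
    set s : ℝ := min (1 - x u) (x v) with hs
    have hs0 : 0 ≤ s := le_min (by linarith) hv0.le
    have hs1 : s ≤ 1 - x u := min_le_left _ _
    have hs2 : s ≤ x v := min_le_right _ _
    refine ⟨fun w => x w + s * dir u v w, box s (by linarith) (by linarith) (by linarith)
      (by linarith), hsum s, key s ?_, fun w h1 h2 => hyw s w h1 h2, ?_⟩
    · exact mul_nonpos_of_nonneg_of_nonpos hs0 (by linarith)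
    · rcases min_choice (1 - x u) (x v) with h | h
      · left; right
        show x u + s * dir u v u = 1
        rw [hyu, hs, h]; ring
      · right; left
        show x v + s * dir u v v = 0
        rw [hyv, hs, h]; ring
  · set s : ℝ := min (x u) (1 - x v) with hs
    have hs0 : 0 ≤ s := le_min hu0.le (by linarith)
    have hs1 : s ≤ x u := min_le_left _ _
    have hs2 : s ≤ 1 - x v := min_le_right _ _
    refine ⟨fun w => x w + (-s) * dir u v w, box (-s) (by linarith) (by linarith) (by linarith)
      (by linarith), hsum (-s), key (-s) ?_, fun w h1 h2 => hyw (-s) w h1 h2, ?_⟩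
    · have : 0 ≤ s * (2 * B G x (dir u v)) := mul_nonneg hs0 (by linarith)
      linarith
    · rcases min_choice (x u) (1 - x v) with h | h
      · left; left
        show x u + (-s) * dir u v u = 0
        rw [hyu, hs, h]; ring
      · right; right
        show x v + (-s) * dir u v v = 1
        rw [hyv, hs, h]; ring

lemma round_exact (k : ℕ) : ∀ (x : V → ℝ) (m : ℕ), (∀ v, 0 ≤ x v ∧ x v ≤ 1) →
    ∑ v, x v = m → (frac x).card ≤ k →
    ∃ S : Finset V, S.card = m ∧
      B G (fun v => if v ∈ S then 1 else 0) (fun v => if v ∈ S then 1 else 0) ≤ B G x x := by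
  classical
  induction k with
  | zero =>
    intro x m hx hm hk
    have h0 : ∀ v, x v = 0 ∨ x v = 1 := by
      intro v
      by_contra hcon
      push Not at hcon
      have hv : v ∈ frac x := by
        unfold frac
        simp only [Finset.mem_filter, Finset.mem_univ, true_and]
        exact hcon
      have := Finset.card_pos.mpr ⟨v, hv⟩
      omega
    refine ⟨Finset.univ.filter fun v => x v = 1, ?_, ?_⟩
    · have h1 : (((Finset.univ.filter fun v => x v = 1).card : ℕ) : ℝ) = ∑ v, x v := by
        rw [Finset.card_filter]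
        push_cast
        refine Finset.sum_congr rfl fun v _ => ?_
        rcases h0 v with h | h
        · simp [h]
        · simp [h]
      rw [hm] at h1
      exact_mod_cast h1
    · have h2 : (fun v => if v ∈ Finset.univ.filter (fun v => x v = 1) then (1 : ℝ) else 0) = x := by
        funext v
        rcases h0 v with h | h
        · simp [h]
        · simp [h]
      rw [h2]
  | succ k ih =>
    intro x m hx hm hk
    by_cases hk' : (frac x).card ≤ k
    · exact ih x m hx hm hk'
    · have hpos : 0 < (frac x).card := by omega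
      obtain ⟨u, hu⟩ := Finset.card_pos.mp hpos
      have hu' : x u ≠ 0 ∧ x u ≠ 1 := by
        unfold frac at hu
        simpa using hu
      obtain ⟨v, hvu, hv'⟩ := exists_other_frac hx hm hu'
      obtain ⟨y, hy, hsum, hB, hw, hor⟩ := step_exists G hx hvu hu' hv'
      have hsub : frac y ⊂ frac x := by
        rw [Finset.ssubset_iff_of_subset]
        · rcases hor with h | h
          · refine ⟨u, hu, ?_⟩
            unfold frac
            simp only [Finset.mem_filter, Finset.mem_univ, true_and]
            rcases h with h | h <;> simp [h]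
          · refine ⟨v, ?_, ?_⟩
            · unfold frac
              simp only [Finset.mem_filter, Finset.mem_univ, true_and]
              exact hv'
            · unfold frac
              simp only [Finset.mem_filter, Finset.mem_univ, true_and]
              rcases h with h | h <;> simp [h]
        · intro w hwy
          unfold frac at hwy ⊢
          simp only [Finset.mem_filter, Finset.mem_univ, true_and] at hwy ⊢
          by_cases h1 : w = u
          · subst h1; exact hu'
          · by_cases h2 : w = v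
            · subst h2; exact hv'
            · rw [← hw w h1 h2]; exact hwy
      have hcard : (frac y).card ≤ k := by
        have := Finset.card_lt_card hsub
        omega
      obtain ⟨S, hS, hS2⟩ := ih y m hy (hsum.trans hm) hcard
      exact ⟨S, hS, hS2.trans hB⟩

/-- Rounding: a fractional half gives an integral one which is at least as good. -/
theorem rounding (x : V → ℝ) (m : ℕ) (hx : ∀ v, 0 ≤ x v ∧ x v ≤ 1) (hm : (m : ℝ) ≤ ∑ v, x v) :
    ∃ S : Finset V, S.card = m ∧
      B G (fun v => if v ∈ S then 1 else 0) (fun v => if v ∈ S then 1 else 0) ≤ B G x x := by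
  classical
  rcases Nat.eq_zero_or_pos m with h0 | hpos
  · subst h0
    refine ⟨∅, rfl, ?_⟩
    have h1 : B G (fun v => if v ∈ (∅ : Finset V) then 1 else 0)
        (fun v => if v ∈ (∅ : Finset V) then 1 else 0) = 0 := by
      unfold B; simp
    rw [h1]
    unfold B
    refine Finset.sum_nonneg fun u _ => Finset.sum_nonneg fun v _ => ?_
    split_ifs
    · exact mul_nonneg (hx u).1 (hx v).1
    · exact le_refl _
  · have hs : 0 < ∑ v, x v := lt_of_lt_of_le (by exact_mod_cast hpos) hm
    set c : ℝ := (m : ℝ) / ∑ v, x v with hc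
    have hc0 : 0 ≤ c := div_nonneg (Nat.cast_nonneg m) hs.le
    have hc1 : c ≤ 1 := by rw [hc, div_le_one hs]; exact hm
    have hy : ∀ v, 0 ≤ c * x v ∧ c * x v ≤ 1 := fun v =>
      ⟨mul_nonneg hc0 (hx v).1, by
        calc c * x v ≤ 1 * 1 := mul_le_mul hc1 (hx v).2 (hx v).1 zero_le_one
          _ = 1 := one_mul 1⟩
    have hsum : ∑ v, c * x v = m := by
      rw [← Finset.mul_sum, hc]; field_simp
    obtain ⟨S, hS, hS2⟩ := round_exact G (frac fun v => c * x v).card (fun v => c * x v) m hy hsum
      (le_refl _)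
    refine ⟨S, hS, hS2.trans (B_mono G (fun v => (hy v).1) fun v => ?_)⟩
    calc c * x v ≤ 1 * x v := mul_le_mul_of_nonneg_right hc1 (hx v).1
      _ = x v := one_mul _

/-- The bilinear form on an indicator counts edges twice. -/
theorem B_indicator (S : Finset V) :
    B G (fun v => if v ∈ S then 1 else 0) (fun v => if v ∈ S then 1 else 0)
      = 2 * ((G.induce (S : Set V)).edgeSet.ncard : ℝ) := by
  classical
  have h1 : (2 : ℝ) * ((G.induce (S : Set V)).edgeSet.ncard : ℝ)
      = ((2 * (G.induce (S : Set V)).edgeFinset.card : ℕ) : ℝ) := by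
    rw [Set.ncard_eq_toFinset_card']
    push_cast
    rfl
  rw [h1, ← SimpleGraph.sum_degrees_eq_twice_card_edges]
  push_cast
  unfold B
  have h2 : ∀ u : V, (∑ v, if G.Adj u v then (if u ∈ S then (1 : ℝ) else 0) * (if v ∈ S then 1 else 0)
      else 0) = if u ∈ S then (∑ v ∈ S, if G.Adj u v then (1 : ℝ) else 0) else 0 := by
    intro u
    by_cases hu : u ∈ S
    · simp only [if_pos hu, one_mul]
      rw [← Finset.sum_filter_add_sum_filter_not Finset.univ (fun v => v ∈ S)]
      have e1 : ∑ v ∈ Finset.univ.filter (fun v => ¬ v ∈ S),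
          (if G.Adj u v then (if v ∈ S then (1 : ℝ) else 0) else 0) = 0 := by
        refine Finset.sum_eq_zero fun v hv => ?_
        rw [Finset.mem_filter] at hv
        simp [hv.2]
      rw [e1, add_zero]
      have e2 : Finset.univ.filter (fun v => v ∈ S) = S := by ext v; simp
      rw [e2]
      refine Finset.sum_congr rfl fun v hv => ?_
      simp [hv]
    · simp only [if_neg hu, zero_mul]
      simp
  rw [Finset.sum_congr rfl fun u _ => h2 u]
  rw [← Finset.sum_filter]
  have e2 : Finset.univ.filter (fun v => v ∈ S) = S := by ext v; simp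
  rw [e2]
  rw [← Finset.sum_coe_sort S]
  refine Finset.sum_congr rfl fun u _ => ?_
  rw [← SimpleGraph.card_neighborFinset_eq_degree]
  rw [SimpleGraph.neighborFinset_eq_filter, Finset.card_filter]
  push_cast
  rw [← Finset.sum_coe_sort S]
  rfl

end

end Pool.Agent.SH51
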