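import Pool.Agent.SH51.Half

/-!
Sparse halves: graphs with few edges (helper51).
-/

namespace Pool.Agent.SH51

open Finset

section
variable {V : Type*} [Fintype V] [DecidableEq V] (G : SimpleGraph V) [DecidableRel G.Adj]

/-- adjacency indicator -/
def ad (u v : V) : ℝ := if G.Adj u v then 1 else 0

lemma ad_comm (u v : V) : ad G u v = ad G v u := by
  unfold ad; simp only [G.adj_comm]

lemma ad_nonneg (u v : V) : 0 ≤ ad G u v := by
  unfold ad; split_ifs <;> norm_num

lemma ad_le_one (u v : V) : ad G u v ≤ 1 := by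
  unfold ad; split_ifs <;> norm_num

lemma B_eq_ad (x y : V → ℝ) : B G x y = ∑ u, ∑ v, ad G u v * (x u * y v) := by
  unfold B ad
  refine Finset.sum_congr rfl fun u _ => Finset.sum_congr rfl fun v _ => ?_
  split_ifs <;> ring

/-- real degree -/
def dr (u : V) : ℝ := ∑ v, ad G u v

lemma dr_nonneg (u : V) : 0 ≤ dr G u := Finset.sum_nonneg fun v _ => ad_nonneg G u v

lemma dr_eq (u : V) : dr G u = ((Finset.univ.filter fun v => G.Adj u v).card : ℝ) := by
  unfold dr ad
  rw [Finset.card_filter]; push_cast; rfl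

lemma B_one_eq : B G (fun _ => 1) (fun _ => 1) = ∑ u, dr G u := by
  rw [B_eq_ad]
  refine Finset.sum_congr rfl fun u _ => ?_
  unfold dr
  refine Finset.sum_congr rfl fun v _ => ?_
  ring

/-- weight of the common non-neighbourhood of two vertices -/
def xw (v w : V) : V → ℝ := fun x => (1 - ad G v x) * (1 - ad G w x)

lemma xw_nonneg (v w x : V) : 0 ≤ xw G v w x :=
  mul_nonneg (by linarith [ad_le_one G v x]) (by linarith [ad_le_one G w x])

lemma xw_le_one (v w x : V) : xw G v w x ≤ 1 := by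
  unfold xw
  have h1 := ad_nonneg G v x
  have h2 := ad_nonneg G w x
  have h3 := ad_le_one G v x
  have h4 := ad_le_one G w x
  calc (1 - ad G v x) * (1 - ad G w x) ≤ 1 * 1 :=
        mul_le_mul (by linarith) (by linarith) (by linarith) zero_le_one
    _ = 1 := one_mul 1

/-- its total weight -/
def mw (v w : V) : ℝ := ∑ x, xw G v w x

lemma mw_ge (v w : V) : (Fintype.card V : ℝ) - dr G v - dr G w ≤ mw G v w := by
  have h1 : (Fintype.card V : ℝ) - dr G v - dr G w = ∑ x, (1 - ad G v x - ad G w x) := by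
    rw [Finset.sum_sub_distrib, Finset.sum_sub_distrib]
    simp [dr]
  rw [h1]
  refine Finset.sum_le_sum fun x _ => ?_
  have := mul_nonneg (ad_nonneg G v x) (ad_nonneg G w x)
  unfold xw
  nlinarith

lemma mw_sum : ∑ v, ∑ w, mw G v w = ∑ x, ((Fintype.card V : ℝ) - dr G x) ^ 2 := by
  unfold mw xw
  have h1 : ∀ v : V, ∑ w, ∑ x, (1 - ad G v x) * (1 - ad G w x)
      = ∑ x, (1 - ad G v x) * ((Fintype.card V : ℝ) - dr G x) := by
    intro v
    rw [Finset.sum_comm]
    refine Finset.sum_congr rfl fun x _ => ?_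
    rw [← Finset.mul_sum, Finset.sum_sub_distrib]
    congr 1
    simp only [Finset.sum_const, Finset.card_univ, nsmul_eq_mul, mul_one]
    congr 1
    unfold dr
    exact Finset.sum_congr rfl fun w _ => ad_comm G w x
  rw [Finset.sum_congr rfl fun v _ => h1 v, Finset.sum_comm]
  refine Finset.sum_congr rfl fun x _ => ?_
  rw [← Finset.sum_mul, Finset.sum_sub_distrib, sq]
  congr 1
  simp only [Finset.sum_const, Finset.card_univ, nsmul_eq_mul, mul_one]
  congr 1
  unfold dr
  exact Finset.sum_congr rfl fun w _ => ad_comm G w x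

/-- for adjacent `x, y` in a triangle-free graph the common non-neighbourhood is exactly known -/
lemma nonnbr {x y : V} (hG : G.CliqueFree 3) (h : G.Adj x y) :
    ∑ v, (1 - ad G v x) * (1 - ad G v y) = (Fintype.card V : ℝ) - dr G x - dr G y := by
  have h1 : ∀ v : V, (1 - ad G v x) * (1 - ad G v y) = 1 - ad G x v - ad G y v := by
    intro v
    have h0 : ad G v x * ad G v y = 0 := by
      unfold ad
      by_cases h1 : G.Adj v x
      · by_cases h2 : G.Adj v y
        · exact absurd (SimpleGraph.is3Clique_triple_iff.mpr ⟨h1, h2, h⟩) (hG {v, x, y})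
        · simp [h2]
      · simp [h1]
    rw [ad_comm G x v, ad_comm G y v]
    linear_combination h0
  rw [Finset.sum_congr rfl fun v _ => h1 v, Finset.sum_sub_distrib, Finset.sum_sub_distrib]
  simp [dr]

lemma B_xw_sum (hG : G.CliqueFree 3) : ∑ v, ∑ w, B G (xw G v w) (xw G v w)
    = ∑ x, ∑ y, ad G x y * ((Fintype.card V : ℝ) - dr G x - dr G y) ^ 2 := by
  have h1 : ∀ v w : V, B G (xw G v w) (xw G v w)
      = ∑ x, ∑ y, ad G x y * (((1 - ad G v x) * (1 - ad G v y)) *
        ((1 - ad G w x) * (1 - ad G w y))) := by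
    intro v w
    rw [B_eq_ad]
    refine Finset.sum_congr rfl fun x _ => Finset.sum_congr rfl fun y _ => ?_
    unfold xw; ring
  have h2 : ∑ v, ∑ w, B G (xw G v w) (xw G v w)
      = ∑ x, ∑ y, ∑ v, ∑ w, ad G x y * (((1 - ad G v x) * (1 - ad G v y)) *
        ((1 - ad G w x) * (1 - ad G w y))) := by
    rw [Finset.sum_congr rfl fun v _ => Finset.sum_congr rfl fun w _ => h1 v w]
    rw [Finset.sum_congr rfl fun v _ => Finset.sum_comm]
    rw [Finset.sum_comm]
    refine Finset.sum_congr rfl fun x _ => ?_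
    rw [Finset.sum_congr rfl fun v _ => Finset.sum_comm]
    rw [Finset.sum_comm]
  rw [h2]
  refine Finset.sum_congr rfl fun x _ => Finset.sum_congr rfl fun y _ => ?_
  by_cases h : G.Adj x y
  · rw [← nonnbr G hG h, sq, Finset.sum_mul_sum, Finset.mul_sum]
    refine Finset.sum_congr rfl fun v _ => ?_
    rw [Finset.mul_sum]
  · have h0 : ad G x y = 0 := by unfold ad; simp [h]
    simp [h0]

lemma edge_sum_le : ∑ x, ∑ y, ad G x y * ((Fintype.card V : ℝ) - dr G x - dr G y) ^ 2
    ≤ ∑ x, dr G x * ((Fintype.card V : ℝ) - 2 * dr G x) ^ 2 := by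
  set n : ℝ := (Fintype.card V : ℝ) with hn
  have h1 : ∑ x, ∑ y, ad G x y * (n - dr G x - dr G y) ^ 2
      ≤ ∑ x, ∑ y, (1 / 2 * (ad G x y * (n - 2 * dr G x) ^ 2)
        + 1 / 2 * (ad G x y * (n - 2 * dr G y) ^ 2)) := by
    refine Finset.sum_le_sum fun x _ => Finset.sum_le_sum fun y _ => ?_
    have := mul_nonneg (ad_nonneg G x y) (sq_nonneg (dr G x - dr G y))
    nlinarith
  refine h1.trans (le_of_eq ?_)
  have h2 : ∑ x, ∑ y, ad G x y * (n - 2 * dr G x) ^ 2
      = ∑ x, dr G x * (n - 2 * dr G x) ^ 2 := by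
    refine Finset.sum_congr rfl fun x _ => ?_
    rw [← Finset.sum_mul]; rfl
  have h3 : ∑ x, ∑ y, ad G x y * (n - 2 * dr G y) ^ 2
      = ∑ x, dr G x * (n - 2 * dr G x) ^ 2 := by
    rw [Finset.sum_comm]
    refine Finset.sum_congr rfl fun x _ => ?_
    rw [← Finset.sum_mul]
    congr 1
    unfold dr
    exact Finset.sum_congr rfl fun w _ => ad_comm G w x
  rw [Finset.sum_congr rfl fun x _ => Finset.sum_add_distrib, Finset.sum_add_distrib]
  simp only [← Finset.mul_sum]
  rw [h2, h3]; ring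

/-- the final one-variable inequality -/
lemma few_poly {m : ℝ} (h0 : 0 ≤ m) (h1 : m ≤ 7 / 40) :
    m * (1 - 2 * m) ^ 2 < 4 / 25 * (1 - m) ^ 4 := by
  nlinarith [mul_nonneg h0 (sub_nonneg.mpr h1), mul_nonneg (mul_nonneg h0 h0) (sub_nonneg.mpr h1),
    sq_nonneg m, sq_nonneg (m - 7 / 40), mul_nonneg (sub_nonneg.mpr h1) (sq_nonneg (m - 7 / 40)),
    mul_nonneg (sub_nonneg.mpr h1) (sq_nonneg m), sq_nonneg (m ^ 2), sq_nonneg (m * (m - 7 / 40))]

variable {G}

/-- **Core**: a triangle-free graph all of whose fractional halves are dense has more than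
`7 n² / 80` edges. -/
theorem few_core (hG : G.CliqueFree 3) (hd : Dense G) :
    7 / 40 * (Fintype.card V : ℝ) ^ 2 < B G (fun _ => 1) (fun _ => 1) := by
  classical
  by_contra hcon
  push Not at hcon
  have hn0 : (0 : ℝ) < (Fintype.card V : ℝ) := by
    have := indep_lt hd (I := ∅) (by simp)
    simp only [Finset.card_empty, Nat.cast_zero] at this
    linarith
  -- degrees are less than n/4
  have hdeg : ∀ v, dr G v < (Fintype.card V : ℝ) / 4 := by
    intro v
    by_contra hv
    push Not at hv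
    have hI : ∀ x ∈ Finset.univ.filter (fun u => G.Adj v u),
        ∀ y ∈ Finset.univ.filter (fun u => G.Adj v u), ¬ G.Adj x y := by
      intro x hx y hy hxy
      rw [Finset.mem_filter] at hx hy
      exact hG {v, x, y} (SimpleGraph.is3Clique_triple_iff.mpr ⟨hx.2, hy.2, hxy⟩)
    have h1 := indep_ineq hd hI
    have h2 := indep_lt hd hI
    rw [← dr_eq] at h1 h2
    set n : ℝ := (Fintype.card V : ℝ) with hn
    set i : ℝ := dr G v with hi
    have h3 : 25 * (n - 2 * i) * B G (fun _ => 1) (fun _ => 1)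
        ≤ 25 * (n - 2 * i) * (7 / 40 * n ^ 2) :=
      mul_le_mul_of_nonneg_left hcon (by linarith)
    have h4 : n * (4 * (n - i) ^ 2) < n * (35 / 8 * n * (n - 2 * i)) := by nlinarith
    have h5 := lt_of_mul_lt_mul_left h4 hn0.le
    nlinarith [mul_nonneg hn0.le (sub_nonneg.mpr hv), sq_nonneg (i - n / 4)]
  set n : ℝ := (Fintype.card V : ℝ) with hn
  set D : ℝ := B G (fun _ => 1) (fun _ => 1) with hD
  have hDsum : D = ∑ u, dr G u := B_one_eq G
  have hD0 : 0 ≤ D := by rw [hDsum]; exact Finset.sum_nonneg fun u _ => dr_nonneg G u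
  -- lower bound for each pair
  have hpair : ∀ v w, 4 / 25 * mw G v w ^ 2 ≤ B G (xw G v w) (xw G v w) := by
    intro v w
    have hM : n / 2 ≤ mw G v w := by
      have := mw_ge G v w
      have h1 := hdeg v
      have h2 := hdeg w
      linarith
    set M : ℝ := mw G v w with hMdef
    have hM0 : 0 < M := by linarith
    have h1 := hd (fun x => n / (2 * M) * xw G v w x) (fun x => by
        have h0 := xw_nonneg G v w x
        have h1 := xw_le_one G v w x
        have h2 : n / (2 * M) ≤ 1 := by rw [div_le_one (by positivity)]; linarith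
        refine ⟨by positivity, ?_⟩
        calc n / (2 * M) * xw G v w x ≤ 1 * 1 := mul_le_mul h2 h1 h0 zero_le_one
          _ = 1 := one_mul 1) (by
        rw [← Finset.mul_sum]
        have : ∑ x, xw G v w x = M := rfl
        rw [this]
        have : n / (2 * M) * M = n / 2 := by field_simp
        rw [this])
    rw [B_smul] at h1
    have h2 : (4 * M ^ 2 / n ^ 2) * (n ^ 2 / 25) ≤ (4 * M ^ 2 / n ^ 2) *
        ((n / (2 * M)) ^ 2 * B G (xw G v w) (xw G v w)) :=
      mul_le_mul_of_nonneg_left h1.le (by positivity)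
    have e1 : (4 * M ^ 2 / n ^ 2) * (n ^ 2 / 25) = 4 / 25 * M ^ 2 := by field_simp
    have e2 : (4 * M ^ 2 / n ^ 2) * ((n / (2 * M)) ^ 2 * B G (xw G v w) (xw G v w))
        = B G (xw G v w) (xw G v w) := by field_simp; ring
    rw [e1, e2] at h2
    exact h2
  -- sum up
  set b : ℝ := n - D / n with hb
  have hS1 : n * b ^ 2 ≤ ∑ x, (n - dr G x) ^ 2 := by
    have h1 : ∑ x : V, (2 * b * (n - dr G x) - b ^ 2) ≤ ∑ x, (n - dr G x) ^ 2 := by
      refine Finset.sum_le_sum fun x _ => ?_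
      nlinarith [sq_nonneg (n - dr G x - b)]
    have h2 : ∑ x : V, (2 * b * (n - dr G x) - b ^ 2) = n * b ^ 2 := by
      rw [Finset.sum_sub_distrib, ← Finset.mul_sum, Finset.sum_sub_distrib, ← hDsum]
      simp only [Finset.sum_const, Finset.card_univ, nsmul_eq_mul]
      rw [← hn, hb]
      field_simp
      ring
    linarith
  have hS2 : b ^ 4 ≤ ∑ v, ∑ w, mw G v w ^ 2 := by
    have h1 : ∑ v : V, ∑ w : V, (2 * (b ^ 2 / n) * mw G v w - (b ^ 2 / n) ^ 2)
        ≤ ∑ v, ∑ w, mw G v w ^ 2 := by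
      refine Finset.sum_le_sum fun v _ => Finset.sum_le_sum fun w _ => ?_
      nlinarith [sq_nonneg (mw G v w - b ^ 2 / n)]
    have h2 : ∑ v : V, ∑ w : V, (2 * (b ^ 2 / n) * mw G v w - (b ^ 2 / n) ^ 2)
        = 2 * (b ^ 2 / n) * ∑ v, ∑ w, mw G v w - n ^ 2 * (b ^ 2 / n) ^ 2 := by
      simp only [Finset.sum_sub_distrib, ← Finset.mul_sum, Finset.sum_const, Finset.card_univ,
        nsmul_eq_mul]
      rw [← hn]; ring
    rw [h2, mw_sum, ← hn] at h1
    have h3 : 2 * (b ^ 2 / n) * (n * b ^ 2) ≤ 2 * (b ^ 2 / n) * ∑ x, (n - dr G x) ^ 2 :=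
      mul_le_mul_of_nonneg_left hS1 (by positivity)
    have e1 : 2 * (b ^ 2 / n) * (n * b ^ 2) = 2 * b ^ 4 := by field_simp
    have e2 : n ^ 2 * (b ^ 2 / n) ^ 2 = b ^ 4 := by field_simp
    rw [e1] at h3
    rw [e2] at h1
    linarith
  have hS3 : 4 / 25 * ∑ v, ∑ w, mw G v w ^ 2 ≤ ∑ x, dr G x * (n - 2 * dr G x) ^ 2 := by
    calc 4 / 25 * ∑ v, ∑ w, mw G v w ^ 2 = ∑ v, ∑ w, 4 / 25 * mw G v w ^ 2 := by
          simp only [Finset.mul_sum]
      _ ≤ ∑ v, ∑ w, B G (xw G v w) (xw G v w) :=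
          Finset.sum_le_sum fun v _ => Finset.sum_le_sum fun w _ => hpair v w
      _ = ∑ x, ∑ y, ad G x y * (n - dr G x - dr G y) ^ 2 := B_xw_sum G hG
      _ ≤ ∑ x, dr G x * (n - 2 * dr G x) ^ 2 := edge_sum_le G
  -- concavity of t ↦ t (n - 2t)² on [0, n/4]
  set M : ℝ := D / n with hM
  have hM0 : 0 ≤ M := div_nonneg hD0 hn0.le
  have hM1 : M ≤ 7 / 40 * n := by
    rw [hM, div_le_iff₀ hn0]; nlinarith
  have hS4 : ∑ x, dr G x * (n - 2 * dr G x) ^ 2 ≤ n * (M * (n - 2 * M) ^ 2) := by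
    have h1 : ∀ x, dr G x * (n - 2 * dr G x) ^ 2
        ≤ M * (n - 2 * M) ^ 2 + (n - 2 * M) * (n - 6 * M) * (dr G x - M) := by
      intro x
      have h2 := hdeg x
      have h3 : 0 ≤ (dr G x - M) ^ 2 * (4 * n - 8 * M - 4 * dr G x) :=
        mul_nonneg (sq_nonneg _) (by linarith)
      nlinarith [h3]
    calc ∑ x, dr G x * (n - 2 * dr G x) ^ 2
        ≤ ∑ x, (M * (n - 2 * M) ^ 2 + (n - 2 * M) * (n - 6 * M) * (dr G x - M)) :=
          Finset.sum_le_sum fun x _ => h1 x
      _ = n * (M * (n - 2 * M) ^ 2) := by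
          rw [Finset.sum_add_distrib, Finset.sum_const, ← Finset.mul_sum,
            Finset.sum_sub_distrib, ← hDsum]
          simp only [Finset.sum_const, Finset.card_univ, nsmul_eq_mul]
          rw [← hn]
          have : D = n * M := by rw [hM]; field_simp
          rw [this]; ring
  have hfin : 4 / 25 * b ^ 4 ≤ n * (M * (n - 2 * M) ^ 2) := by
    have := mul_le_mul_of_nonneg_left hS2 (by norm_num : (0 : ℝ) ≤ 4 / 25)
    linarith
  have hp := few_poly (m := M / n) (div_nonneg hM0 hn0.le) (by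
    rw [div_le_iff₀ hn0]; exact hM1)
  have hp2 : n ^ 4 * (M / n * (1 - 2 * (M / n)) ^ 2) < n ^ 4 * (4 / 25 * (1 - M / n) ^ 4) :=
    mul_lt_mul_of_pos_left hp (by positivity)
  have e1 : n ^ 4 * (M / n * (1 - 2 * (M / n)) ^ 2) = n * (M * (n - 2 * M) ^ 2) := by
    field_simp
  have e2 : n ^ 4 * (4 / 25 * (1 - M / n) ^ 4) = 4 / 25 * b ^ 4 := by
    rw [hb]; field_simp
  rw [e1, e2] at hp2
  linarith

end

end Pool.Agent.SH51
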