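import Pool.Agent.SH51.Few

/-!
Sparse halves: graphs with at most `9 n² / 100` edges (helper51).
-/

namespace Pool.Agent.SH51

open Finset

/-- the coefficient of the variance -/
noncomputable def c1 (m s : ℝ) : ℝ := 6 * s ^ 2 - 3 * s - 24 * s * m + 1 / 2 + 4 * m + 24 * m ^ 2

/-- the final polynomial -/
noncomputable def P3 (m s : ℝ) : ℝ :=
  4 / 25 * (s - m) ^ 6 - s ^ 3 * (m * (s - 2 * m) ^ 3 - c1 m s * ((s - 6 * m) * (s - 1)) / 9)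

lemma six_pow {a b : ℝ} (hb : 0 ≤ b) (hab : b ≤ a) : b ^ 6 + 6 * b ^ 5 * (a - b) ≤ a ^ 6 := by
  have ha : 0 ≤ a := hb.trans hab
  have h5 : b ^ 5 ≤ a ^ 5 := pow_le_pow_left₀ hb hab 5
  have h4 : b ^ 4 ≤ a ^ 4 := pow_le_pow_left₀ hb hab 4
  have h3 : b ^ 3 ≤ a ^ 3 := pow_le_pow_left₀ hb hab 3
  have h2 : b ^ 2 ≤ a ^ 2 := pow_le_pow_left₀ hb hab 2
  have e : a ^ 6 - b ^ 6 - 6 * b ^ 5 * (a - b) = (a - b) * ((a ^ 5 - b ^ 5) + b * (a ^ 4 - b ^ 4)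
      + b ^ 2 * (a ^ 3 - b ^ 3) + b ^ 3 * (a ^ 2 - b ^ 2) + b ^ 4 * (a - b)) := by ring
  have : 0 ≤ a ^ 6 - b ^ 6 - 6 * b ^ 5 * (a - b) := by
    rw [e]
    refine mul_nonneg (by linarith) ?_
    have t1 : 0 ≤ b * (a ^ 4 - b ^ 4) := mul_nonneg hb (by linarith)
    have t2 : 0 ≤ b ^ 2 * (a ^ 3 - b ^ 3) := mul_nonneg (by positivity) (by linarith)
    have t3 : 0 ≤ b ^ 3 * (a ^ 2 - b ^ 2) := mul_nonneg (by positivity) (by linarith)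
    have t4 : 0 ≤ b ^ 4 * (a - b) := mul_nonneg (by positivity) (by linarith)
    linarith
  linarith

lemma c1_nonneg {m s : ℝ} (h1 : m ≤ 9 / 50) (hs1 : 1 ≤ s) : 0 ≤ c1 m s := by
  unfold c1
  nlinarith [sq_nonneg (s - 1), mul_nonneg (sub_nonneg.mpr hs1) (sub_nonneg.mpr h1),
    sq_nonneg (m - 9 / 50), sq_nonneg (m - 5 / 12)]

lemma c1_anti {m m0 s : ℝ} (hm : m ≤ m0) (hm0 : m0 ≤ 9 / 50) (hs1 : 1 ≤ s) :
    c1 m0 s ≤ c1 m s := by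
  have e : c1 m s - c1 m0 s = (m0 - m) * (24 * s - 4 - 24 * (m + m0)) := by unfold c1; ring
  have : 0 ≤ c1 m s - c1 m0 s := by
    rw [e]
    exact mul_nonneg (by linarith) (by linarith)
  linarith

/-- monotonicity in `m` -/
lemma P3_anti {m m0 s : ℝ} (h0 : 0 ≤ m) (hm : m ≤ m0) (hm0 : m0 ≤ 9 / 50) (hs : 6 * m0 ≤ s)
    (hs1 : 1 ≤ s) (hs2 : s ≤ 3 / 2) : P3 m0 s ≤ P3 m s := by
  have hs0 : 0 < s := by linarith
  have hd : 0 ≤ m0 - m := by linarith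
  -- first term
  have hA : (s - m0) ^ 6 + 6 * (s - m0) ^ 5 * (m0 - m) ≤ (s - m) ^ 6 := by
    have := six_pow (a := s - m) (b := s - m0) (by linarith) (by linarith)
    have e : s - m - (s - m0) = m0 - m := by ring
    rwa [e] at this
  have hA2 : (5 / 6 * s) ^ 5 ≤ (s - m0) ^ 5 := pow_le_pow_left₀ (by positivity) (by linarith) 5
  have hA3 : 6 * (5 / 6 * s) ^ 5 * (m0 - m) ≤ 6 * (s - m0) ^ 5 * (m0 - m) :=
    mul_le_mul_of_nonneg_right (by linarith) hd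
  -- second term
  have hB : m * (s - 2 * m) ^ 3 ≤ m0 * (s - 2 * m0) ^ 3 + 4 / 27 * s ^ 3 * (m0 - m) := by
    have e : m0 * (s - 2 * m0) ^ 3 + 4 / 27 * s ^ 3 * (m0 - m) - m * (s - 2 * m) ^ 3
        = (m0 - m) * (31 / 27 * s ^ 3 - 6 * s ^ 2 * (m0 + m) + 12 * s * (m0 ^ 2 + m0 * m + m ^ 2)
          - 8 * (m0 ^ 3 + m0 ^ 2 * m + m0 * m ^ 2 + m ^ 3)) := by ring
    have h2 : 0 ≤ 31 / 27 * s ^ 3 - 6 * s ^ 2 * (m0 + m) + 12 * s * (m0 ^ 2 + m0 * m + m ^ 2)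
          - 8 * (m0 ^ 3 + m0 ^ 2 * m + m0 * m ^ 2 + m ^ 3) := by
      obtain ⟨p, hp⟩ : ∃ p, p = s - 6 * m0 := ⟨_, rfl⟩
      have hp0 : 0 ≤ p := by linarith
      have hs' : s = 6 * m0 + p := by linarith
      obtain ⟨q, hq⟩ : ∃ q, q = m0 - m := ⟨_, rfl⟩
      have hq0 : 0 ≤ q := by linarith
      have hm0' : m0 = m + q := by linarith
      subst hs'
      subst hm0'
      ring_nf
      positivity
    have : 0 ≤ m0 * (s - 2 * m0) ^ 3 + 4 / 27 * s ^ 3 * (m0 - m) - m * (s - 2 * m) ^ 3 := by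
      rw [e]; exact mul_nonneg hd h2
    linarith
  have hB2 : s ^ 3 * (m * (s - 2 * m) ^ 3)
      ≤ s ^ 3 * (m0 * (s - 2 * m0) ^ 3 + 4 / 27 * s ^ 3 * (m0 - m)) :=
    mul_le_mul_of_nonneg_left hB (by positivity)
  -- third term
  have hC : c1 m0 s * ((s - 6 * m0) * (s - 1)) ≤ c1 m s * ((s - 6 * m) * (s - 1)) := by
    refine mul_le_mul (c1_anti hm hm0 hs1) ?_ ?_ (c1_nonneg (by linarith) hs1)
    · exact mul_le_mul_of_nonneg_right (by linarith) (by linarith)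
    · exact mul_nonneg (by linarith) (by linarith)
  have hC2 : s ^ 3 * (c1 m0 s * ((s - 6 * m0) * (s - 1)) / 9)
      ≤ s ^ 3 * (c1 m s * ((s - 6 * m) * (s - 1)) / 9) :=
    mul_le_mul_of_nonneg_left (by linarith) (by positivity)
  -- comparison
  have hD : s ^ 3 * (4 / 27 * s ^ 3 * (m0 - m)) ≤ 4 / 25 * (6 * (5 / 6 * s) ^ 5 * (m0 - m)) := by
    have e1 : s ^ 3 * (4 / 27 * s ^ 3 * (m0 - m)) = (s ^ 5 * (m0 - m)) * (4 / 27 * s) := by ring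
    have e2 : 4 / 25 * (6 * (5 / 6 * s) ^ 5 * (m0 - m))
        = (s ^ 5 * (m0 - m)) * (125 / 324) := by ring
    rw [e1, e2]
    exact mul_le_mul_of_nonneg_left (by linarith) (by positivity)
  unfold P3
  nlinarith [hA, hA3, hB2, hC2, hD]

lemma P3_diag {s : ℝ} (hs1 : 1 ≤ s) (hs2 : s ≤ 27 / 25) : 0 < P3 (s / 6) s := by
  have e : P3 (s / 6) s = s ^ 6 * (4 / 25 * (5 / 6) ^ 6 - 4 / 81 * s) := by
    unfold P3 c1; ring
  rw [e]
  refine mul_pos (by positivity) ?_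
  norm_num
  linarith

lemma P3_end {s : ℝ} (hs1 : 27 / 25 ≤ s) (hs2 : s ≤ 3 / 2) : 0 < P3 (9 / 50) s := by
  obtain ⟨r, hr⟩ : ∃ r, r = s - 27 / 25 := ⟨_, rfl⟩
  have hr0 : 0 ≤ r := by linarith
  have hr1 : r ≤ 21 / 50 := by linarith
  have hs : s = 27 / 25 + r := by linarith
  subst hs
  unfold P3 c1
  ring_nf
  nlinarith [sq_nonneg (r - 1 / 40), mul_nonneg hr0 (sq_nonneg (r - 1 / 40)),
    mul_nonneg hr0 hr0, mul_nonneg (mul_nonneg hr0 hr0) hr0, pow_nonneg hr0 4,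
    pow_nonneg hr0 5, pow_nonneg hr0 6, pow_nonneg hr0 7]

lemma P3_pos {m s : ℝ} (h0 : 0 ≤ m) (h1 : m ≤ 9 / 50) (hs : 6 * m ≤ s)
    (hs1 : 1 ≤ s) (hs2 : s ≤ 3 / 2) : 0 < P3 m s := by
  rcases le_total s (27 / 25) with h | h
  · refine lt_of_lt_of_le (P3_diag hs1 h) ?_
    exact P3_anti h0 (by linarith) (by linarith) (by linarith) hs1 hs2
  · refine lt_of_lt_of_le (P3_end h hs2) ?_
    exact P3_anti h0 h1 le_rfl (by linarith) hs1 hs2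

end Pool.Agent.SH51
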