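import Pool.Agent.SH51.Few3

/-!
Sparse halves: a triangle-free graph without a sparse half has more than `9 n² / 100` edges
(helper51).
-/

namespace Pool.Agent.SH51

open Finset

/-- expansion of a cube of a sum -/
lemma cube_sum {V ι : Type*} [Fintype V] [Fintype ι] (c : ι → ℝ) (F : V → ι → ℝ) :
    ∑ u, ∑ v, ∑ w, ∑ i, c i * (F u i * F v i * F w i) = ∑ i, c i * (∑ v, F v i) ^ 3 := by
  have h1 : ∀ i, c i * (∑ v, F v i) ^ 3 = ∑ u, ∑ v, ∑ w, c i * (F u i * F v i * F w i) := by
    intro i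
    rw [pow_succ, sq, Finset.sum_mul_sum, Finset.sum_mul, Finset.mul_sum]
    refine Finset.sum_congr rfl fun u _ => ?_
    rw [Finset.sum_mul, Finset.mul_sum]
    refine Finset.sum_congr rfl fun v _ => ?_
    rw [Finset.mul_sum, Finset.mul_sum]
  calc ∑ u, ∑ v, ∑ w, ∑ i, c i * (F u i * F v i * F w i)
      = ∑ u, ∑ v, ∑ i, ∑ w, c i * (F u i * F v i * F w i) :=
        Finset.sum_congr rfl fun u _ => Finset.sum_congr rfl fun v _ => Finset.sum_comm
    _ = ∑ u, ∑ i, ∑ v, ∑ w, c i * (F u i * F v i * F w i) :=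
        Finset.sum_congr rfl fun u _ => Finset.sum_comm
    _ = ∑ i, ∑ u, ∑ v, ∑ w, c i * (F u i * F v i * F w i) := Finset.sum_comm
    _ = ∑ i, c i * (∑ v, F v i) ^ 3 := Finset.sum_congr rfl fun i _ => (h1 i).symm

section
variable {V : Type*} [Fintype V] [DecidableEq V] (G : SimpleGraph V) [DecidableRel G.Adj]

/-- sampling weight -/
noncomputable def mu (v : V) : ℝ := max 1 (6 * dr G v / Fintype.card V)

lemma mu_ge (v : V) : 1 ≤ mu G v := le_max_left _ _

/-- damping factor -/
noncomputable def lam (v : V) : ℝ := 1 / mu G v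

lemma lam_nonneg (v : V) : 0 ≤ lam G v := by
  have := mu_ge G v
  unfold lam; positivity

lemma lam_le (v : V) : lam G v ≤ 1 := by
  have := mu_ge G v
  unfold lam
  rw [div_le_one (by linarith)]; exact this

lemma mu_lam (v : V) : mu G v * lam G v = 1 := by
  have := mu_ge G v
  unfold lam
  field_simp

lemma lam_dr (hn : (0 : ℝ) < Fintype.card V) (v : V) :
    lam G v * dr G v ≤ (Fintype.card V : ℝ) / 6 := by
  have h1 := mu_ge G v
  have h2 : 6 * dr G v / Fintype.card V ≤ mu G v := le_max_right _ _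
  unfold lam
  rw [div_mul_eq_mul_div, one_mul, div_le_div_iff₀ (by linarith) (by norm_num)]
  rw [div_le_iff₀ hn] at h2
  linarith

/-- damped non-neighbourhood of a vertex -/
noncomputable def phi (v x : V) : ℝ := 1 - lam G v * ad G v x

lemma phi_nonneg (v x : V) : 0 ≤ phi G v x := by
  unfold phi
  have : lam G v * ad G v x ≤ 1 * 1 :=
    mul_le_mul (lam_le G v) (ad_le_one G v x) (ad_nonneg G v x) zero_le_one
  linarith

lemma phi_le (v x : V) : phi G v x ≤ 1 := by
  unfold phi
  have := mul_nonneg (lam_nonneg G v) (ad_nonneg G v x)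
  linarith

/-- total sampling weight -/
noncomputable def Sw : ℝ := ∑ v, mu G v

lemma sum_phi (x : V) : ∑ v, mu G v * phi G v x = Sw G - dr G x := by
  have h1 : ∀ v, mu G v * phi G v x = mu G v - ad G x v := by
    intro v
    unfold phi
    have := mu_lam G v
    rw [ad_comm G x v]
    linear_combination (-ad G v x) * this
  rw [Finset.sum_congr rfl fun v _ => h1 v, Finset.sum_sub_distrib]
  rfl

lemma sum_phi2 (hG : G.CliqueFree 3) {x y : V} (h : G.Adj x y) :
    ∑ v, mu G v * (phi G v x * phi G v y) = Sw G - dr G x - dr G y := by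
  have h1 : ∀ v : V, mu G v * (phi G v x * phi G v y) = mu G v - ad G x v - ad G y v := by
    intro v
    have h0 : ad G v x * ad G v y = 0 := by
      unfold ad
      by_cases h1 : G.Adj v x
      · by_cases h2 : G.Adj v y
        · exact absurd (SimpleGraph.is3Clique_triple_iff.mpr ⟨h1, h2, h⟩) (hG {v, x, y})
        · simp [h2]
      · simp [h1]
    have h2 := mu_lam G v
    rw [ad_comm G x v, ad_comm G y v]
    unfold phi
    linear_combination (mu G v * lam G v ^ 2) * h0 + (-ad G v x - ad G v y) * h2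
  rw [Finset.sum_congr rfl fun v _ => h1 v, Finset.sum_sub_distrib, Finset.sum_sub_distrib]
  rfl

/-- the weight attached to three vertices -/
noncomputable def x3 (u v w : V) : V → ℝ := fun x => phi G u x * phi G v x * phi G w x

lemma x3_nonneg (u v w x : V) : 0 ≤ x3 G u v w x :=
  mul_nonneg (mul_nonneg (phi_nonneg G u x) (phi_nonneg G v x)) (phi_nonneg G w x)

lemma x3_le_one (u v w x : V) : x3 G u v w x ≤ 1 := by
  unfold x3
  calc phi G u x * phi G v x * phi G w x ≤ 1 * 1 * 1 :=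
        mul_le_mul (mul_le_mul (phi_le G u x) (phi_le G v x) (phi_nonneg G v x) zero_le_one)
          (phi_le G w x) (phi_nonneg G w x) (by norm_num)
    _ = 1 := by norm_num

noncomputable def m3 (u v w : V) : ℝ := ∑ x, x3 G u v w x

lemma m3_ge (hn : (0 : ℝ) < Fintype.card V) (u v w : V) :
    (Fintype.card V : ℝ) / 2 ≤ m3 G u v w := by
  have h1 : (Fintype.card V : ℝ) - lam G u * dr G u - lam G v * dr G v - lam G w * dr G w
      = ∑ x, (1 - lam G u * ad G u x - lam G v * ad G v x - lam G w * ad G w x) := by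
    rw [Finset.sum_sub_distrib, Finset.sum_sub_distrib, Finset.sum_sub_distrib]
    simp [dr, Finset.mul_sum]
  have h2 : ∑ x, (1 - lam G u * ad G u x - lam G v * ad G v x - lam G w * ad G w x)
      ≤ m3 G u v w := by
    unfold m3
    refine Finset.sum_le_sum fun x _ => ?_
    unfold x3
    have a1 := phi_nonneg G u x
    have a2 := phi_nonneg G v x
    have a3 := phi_nonneg G w x
    have b1 := phi_le G u x
    have b2 := phi_le G v x
    have b3 := phi_le G w x
    have e : 1 - lam G u * ad G u x - lam G v * ad G v x - lam G w * ad G w x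
        = phi G u x + phi G v x + phi G w x - 2 := by unfold phi; ring
    rw [e]
    have c1 : phi G u x + phi G v x - 1 ≤ phi G u x * phi G v x := by
      nlinarith [mul_nonneg (sub_nonneg.mpr b1) (sub_nonneg.mpr b2)]
    have c2 : phi G u x * phi G v x + phi G w x - 1 ≤ phi G u x * phi G v x * phi G w x := by
      have : phi G u x * phi G v x ≤ 1 := by
        calc phi G u x * phi G v x ≤ 1 * 1 := mul_le_mul b1 b2 a2 zero_le_one
          _ = 1 := one_mul 1
      nlinarith [mul_nonneg (sub_nonneg.mpr this) (sub_nonneg.mpr b3)]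
    linarith
  have := lam_dr G hn u
  have := lam_dr G hn v
  have := lam_dr G hn w
  linarith

lemma m3_sum : ∑ u, ∑ v, ∑ w, mu G u * mu G v * mu G w * m3 G u v w
    = ∑ x, (Sw G - dr G x) ^ 3 := by
  have h1 := cube_sum (V := V) (ι := V) (fun _ => 1) (fun v x => mu G v * phi G v x)
  have h2 : ∑ x, (1 : ℝ) * (∑ v, mu G v * phi G v x) ^ 3 = ∑ x, (Sw G - dr G x) ^ 3 := by
    refine Finset.sum_congr rfl fun x _ => ?_
    rw [sum_phi, one_mul]
  rw [← h2, ← h1]
  refine Finset.sum_congr rfl fun u _ => Finset.sum_congr rfl fun v _ =>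
    Finset.sum_congr rfl fun w _ => ?_
  unfold m3 x3
  rw [Finset.mul_sum]
  refine Finset.sum_congr rfl fun x _ => ?_
  ring

lemma B3_sum (hG : G.CliqueFree 3) :
    ∑ u, ∑ v, ∑ w, mu G u * mu G v * mu G w * B G (x3 G u v w) (x3 G u v w)
    = ∑ x, ∑ y, ad G x y * (Sw G - dr G x - dr G y) ^ 3 := by
  have h1 := cube_sum (V := V) (ι := V × V) (fun p => ad G p.1 p.2)
    (fun v p => mu G v * (phi G v p.1 * phi G v p.2))
  have h2 : ∑ p : V × V, ad G p.1 p.2 * (∑ v, mu G v * (phi G v p.1 * phi G v p.2)) ^ 3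
      = ∑ x, ∑ y, ad G x y * (Sw G - dr G x - dr G y) ^ 3 := by
    rw [Fintype.sum_prod_type]
    refine Finset.sum_congr rfl fun x _ => Finset.sum_congr rfl fun y _ => ?_
    by_cases h : G.Adj x y
    · rw [sum_phi2 G hG h]
    · have h0 : ad G x y = 0 := by unfold ad; simp [h]
      simp [h0]
  rw [← h2, ← h1]
  refine Finset.sum_congr rfl fun u _ => Finset.sum_congr rfl fun v _ =>
    Finset.sum_congr rfl fun w _ => ?_
  rw [B_eq_ad, Fintype.sum_prod_type, Finset.mul_sum]
  refine Finset.sum_congr rfl fun x _ => ?_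
  rw [Finset.mul_sum]
  refine Finset.sum_congr rfl fun y _ => ?_
  unfold x3
  ring

lemma mu3_sum : ∑ u, ∑ v, ∑ w, mu G u * mu G v * mu G w = Sw G ^ 3 := by
  have h1 := cube_sum (V := V) (ι := Unit) (fun _ => 1) (fun v _ => mu G v)
  simpa [Sw] using h1

lemma edge3_le (hpos : ∀ x, 0 ≤ Sw G - 2 * dr G x) :
    ∑ x, ∑ y, ad G x y * (Sw G - dr G x - dr G y) ^ 3
    ≤ ∑ x, dr G x * (Sw G - 2 * dr G x) ^ 3 := by
  have h1 : ∑ x, ∑ y, ad G x y * (Sw G - dr G x - dr G y) ^ 3
      ≤ ∑ x, ∑ y, (1 / 2 * (ad G x y * (Sw G - 2 * dr G x) ^ 3)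
        + 1 / 2 * (ad G x y * (Sw G - 2 * dr G y) ^ 3)) := by
    refine Finset.sum_le_sum fun x _ => Finset.sum_le_sum fun y _ => ?_
    have hx := hpos x
    have hy := hpos y
    have key : (Sw G - dr G x - dr G y) ^ 3
        ≤ 1 / 2 * (Sw G - 2 * dr G x) ^ 3 + 1 / 2 * (Sw G - 2 * dr G y) ^ 3 := by
      have : 0 ≤ ((Sw G - 2 * dr G x) + (Sw G - 2 * dr G y)) * (dr G x - dr G y) ^ 2 :=
        mul_nonneg (by linarith) (sq_nonneg _)
      nlinarith [this]
    have := mul_le_mul_of_nonneg_left key (ad_nonneg G x y)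
    linarith
  refine h1.trans (le_of_eq ?_)
  have h2 : ∑ x, ∑ y, ad G x y * (Sw G - 2 * dr G x) ^ 3
      = ∑ x, dr G x * (Sw G - 2 * dr G x) ^ 3 := by
    refine Finset.sum_congr rfl fun x _ => ?_
    rw [← Finset.sum_mul]; rfl
  have h3 : ∑ x, ∑ y, ad G x y * (Sw G - 2 * dr G y) ^ 3
      = ∑ x, dr G x * (Sw G - 2 * dr G x) ^ 3 := by
    rw [Finset.sum_comm]
    refine Finset.sum_congr rfl fun x _ => ?_
    rw [← Finset.sum_mul]
    congr 1
    unfold dr
    exact Finset.sum_congr rfl fun w _ => ad_comm G w x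
  rw [Finset.sum_congr rfl fun x _ => Finset.sum_add_distrib, Finset.sum_add_distrib]
  simp only [← Finset.mul_sum]
  rw [h2, h3]; ring

variable {G}

/-- the bound for one triple -/
lemma triple_bound (hd : Dense G) (hn : (0 : ℝ) < Fintype.card V) (u v w : V) :
    4 / 25 * m3 G u v w ^ 2 ≤ B G (x3 G u v w) (x3 G u v w) := by
  have hM := m3_ge G hn u v w
  set n : ℝ := (Fintype.card V : ℝ) with hn'
  set M : ℝ := m3 G u v w with hMdef
  have hM0 : 0 < M := by linarith
  have h1 := hd (fun x => n / (2 * M) * x3 G u v w x) (fun x => by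
      have h0 := x3_nonneg G u v w x
      have h1 := x3_le_one G u v w x
      have h2 : n / (2 * M) ≤ 1 := by rw [div_le_one (by positivity)]; linarith
      refine ⟨by positivity, ?_⟩
      calc n / (2 * M) * x3 G u v w x ≤ 1 * 1 := mul_le_mul h2 h1 h0 zero_le_one
        _ = 1 := one_mul 1) (by
      rw [← Finset.mul_sum]
      have : ∑ x, x3 G u v w x = M := rfl
      rw [this]
      have : n / (2 * M) * M = n / 2 := by field_simp
      rw [this])
  rw [B_smul] at h1
  have h2 : (4 * M ^ 2 / n ^ 2) * (n ^ 2 / 25) ≤ (4 * M ^ 2 / n ^ 2) *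
      ((n / (2 * M)) ^ 2 * B G (x3 G u v w) (x3 G u v w)) :=
    mul_le_mul_of_nonneg_left h1.le (by positivity)
  have e1 : (4 * M ^ 2 / n ^ 2) * (n ^ 2 / 25) = 4 / 25 * M ^ 2 := by field_simp
  have e2 : (4 * M ^ 2 / n ^ 2) * ((n / (2 * M)) ^ 2 * B G (x3 G u v w) (x3 G u v w))
      = B G (x3 G u v w) (x3 G u v w) := by field_simp; ring
  rw [e1, e2] at h2
  exact h2

/-- Summed over all triples. -/
lemma triple_sum (hG : G.CliqueFree 3) (hd : Dense G) (hn : (0 : ℝ) < Fintype.card V)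
    (hS : 0 < Sw G) :
    4 / 25 * (∑ x, (Sw G - dr G x) ^ 3) ^ 2
      ≤ Sw G ^ 3 * ∑ x, ∑ y, ad G x y * (Sw G - dr G x - dr G y) ^ 3 := by
  set T : ℝ := ∑ x, (Sw G - dr G x) ^ 3 with hT
  set S : ℝ := Sw G with hSd
  set κ : ℝ := T / S ^ 3 with hκ
  have h1 : ∑ u, ∑ v, ∑ w, mu G u * mu G v * mu G w * (4 / 25 * (2 * κ * m3 G u v w - κ ^ 2))
      ≤ ∑ u, ∑ v, ∑ w, mu G u * mu G v * mu G w * B G (x3 G u v w) (x3 G u v w) := by
    refine Finset.sum_le_sum fun u _ => Finset.sum_le_sum fun v _ =>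
      Finset.sum_le_sum fun w _ => ?_
    refine mul_le_mul_of_nonneg_left ?_ ?_
    · refine le_trans ?_ (triple_bound hd hn u v w)
      nlinarith [sq_nonneg (m3 G u v w - κ)]
    · have := mu_ge G u
      have := mu_ge G v
      have := mu_ge G w
      positivity
  have h2 : ∑ u, ∑ v, ∑ w, mu G u * mu G v * mu G w * (4 / 25 * (2 * κ * m3 G u v w - κ ^ 2))
      = 4 / 25 * (2 * κ * (∑ u, ∑ v, ∑ w, mu G u * mu G v * mu G w * m3 G u v w)
        - κ ^ 2 * ∑ u, ∑ v, ∑ w, mu G u * mu G v * mu G w) := by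
    simp only [Finset.mul_sum]
    rw [← Finset.sum_sub_distrib]
    simp only [← Finset.sum_sub_distrib, Finset.mul_sum]
    refine Finset.sum_congr rfl fun u _ => Finset.sum_congr rfl fun v _ =>
      Finset.sum_congr rfl fun w _ => ?_
    ring
  rw [h2, m3_sum, mu3_sum, B3_sum G hG] at h1
  have h3 : S ^ 3 * (4 / 25 * (2 * κ * T - κ ^ 2 * S ^ 3)) = 4 / 25 * T ^ 2 := by
    rw [hκ]; field_simp; ring
  rw [← h3]
  exact mul_le_mul_of_nonneg_left h1 (by positivity)

/-- **Core**: a triangle-free graph all of whose fractional halves are dense has more than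
`9 n² / 100` edges. -/
theorem few3_core (hG : G.CliqueFree 3) (hd : Dense G) :
    9 / 50 * (Fintype.card V : ℝ) ^ 2 < B G (fun _ => 1) (fun _ => 1) := by
  classical
  by_contra hcon
  push Not at hcon
  have hn0 : (0 : ℝ) < (Fintype.card V : ℝ) := by
    have := indep_lt hd (I := ∅) (by simp)
    simp only [Finset.card_empty, Nat.cast_zero] at this
    linarith
  -- degrees are less than n/4
  have hdeg : ∀ v, dr G v < (Fintype.card V : ℝ) / 4 := by
    intro v
    by_contra hv
    push Not at hv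
    have hI : ∀ x ∈ Finset.univ.filter (fun u => G.Adj v u),
        ∀ y ∈ Finset.univ.filter (fun u => G.Adj v u), ¬ G.Adj x y := by
      intro x hx y hy hxy
      rw [Finset.mem_filter] at hx hy
      exact hG {v, x, y} (SimpleGraph.is3Clique_triple_iff.mpr ⟨hx.2, hy.2, hxy⟩)
    have h1 := indep_ineq hd hI
    have h2 := indep_lt hd hI
    rw [← dr_eq] at h1 h2
    set n : ℝ := (Fintype.card V : ℝ) with hn
    set i : ℝ := dr G v with hi
    have h3 : 25 * (n - 2 * i) * B G (fun _ => 1) (fun _ => 1)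
        ≤ 25 * (n - 2 * i) * (9 / 50 * n ^ 2) :=
      mul_le_mul_of_nonneg_left hcon (by linarith)
    have h4 : n * (4 * (n - i) ^ 2) < n * (9 / 2 * n * (n - 2 * i)) := by nlinarith
    have h5 := lt_of_mul_lt_mul_left h4 hn0.le
    nlinarith [mul_nonneg hn0.le (sub_nonneg.mpr hv), sq_nonneg (i - n / 4)]
  set n : ℝ := (Fintype.card V : ℝ) with hn
  set D : ℝ := B G (fun _ => 1) (fun _ => 1) with hD
  have hDsum : D = ∑ u, dr G u := B_one_eq G
  have hD0 : 0 ≤ D := by rw [hDsum]; exact Finset.sum_nonneg fun u _ => dr_nonneg G u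
  set S : ℝ := Sw G with hS
  have hSn : n ≤ S := by
    have : ∑ _v : V, (1 : ℝ) ≤ S := Finset.sum_le_sum fun v _ => mu_ge G v
    simpa [hn] using this
  have hS0 : 0 < S := lt_of_lt_of_le hn0 hSn
  have hmu : ∀ v, n * mu G v = max n (6 * dr G v) := by
    intro v
    unfold mu
    rw [mul_max_of_nonneg _ _ hn0.le, mul_one, ← hn]
    congr 1
    field_simp
  have hSsum : n * S = ∑ v, max n (6 * dr G v) := by
    rw [hS]; unfold Sw
    rw [Finset.mul_sum]
    exact Finset.sum_congr rfl fun v _ => hmu v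
  have hS2 : S ≤ 3 / 2 * n := by
    have h1 : n * S ≤ n * (3 / 2 * n) := by
      rw [hSsum]
      calc ∑ v, max n (6 * dr G v) ≤ ∑ _v : V, 3 / 2 * n := by
            refine Finset.sum_le_sum fun v _ => ?_
            have := hdeg v
            exact max_le (by linarith) (by linarith)
        _ = n * (3 / 2 * n) := by
            simp only [Finset.sum_const, Finset.card_univ, nsmul_eq_mul]
            rw [← hn]
    exact le_of_mul_le_mul_left h1 hn0
  set M : ℝ := D / n with hM
  have hDM : D = n * M := by rw [hM]; field_simp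
  have hM0 : 0 ≤ M := div_nonneg hD0 hn0.le
  have hM1 : M ≤ 9 / 50 * n := by
    rw [hM, div_le_iff₀ hn0]; nlinarith
  have hS6 : 6 * M ≤ S := by
    have h1 : n * (6 * M) ≤ n * S := by
      rw [hSsum]
      calc n * (6 * M) = ∑ v, 6 * dr G v := by rw [← Finset.mul_sum, ← hDsum, hDM]; ring
        _ ≤ ∑ v, max n (6 * dr G v) := Finset.sum_le_sum fun v _ => le_max_right _ _
    exact le_of_mul_le_mul_left h1 hn0
  -- variance
  set W : ℝ := ∑ x, (dr G x - M) ^ 2 with hW
  have hWge : n * ((S - 6 * M) * (S - n)) ≤ 9 * W := by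
    set κ : ℝ := 2 * S - n - 6 * M with hκ
    have h1 : ∑ x : V, (2 * κ * (2 * max n (6 * dr G x) - n - 6 * dr G x) - κ ^ 2)
        ≤ ∑ x, (6 * dr G x - n) ^ 2 := by
      refine Finset.sum_le_sum fun x _ => ?_
      rcases le_total n (6 * dr G x) with h | h
      · rw [max_eq_right h]
        nlinarith [sq_nonneg (6 * dr G x - n - κ)]
      · rw [max_eq_left h]
        nlinarith [sq_nonneg (n - 6 * dr G x - κ)]
    have h2 : ∑ x : V, (2 * κ * (2 * max n (6 * dr G x) - n - 6 * dr G x) - κ ^ 2)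
        = n * κ ^ 2 := by
      rw [Finset.sum_sub_distrib, ← Finset.mul_sum, Finset.sum_sub_distrib,
        Finset.sum_sub_distrib, ← Finset.mul_sum, ← hSsum, ← Finset.mul_sum, ← hDsum]
      simp only [Finset.sum_const, Finset.card_univ, nsmul_eq_mul]
      rw [← hn, hDM, hκ]; ring
    have h3 : ∑ x, (6 * dr G x - n) ^ 2 = 36 * W + n * (6 * M - n) ^ 2 := by
      have e1 : ∀ x, (6 * dr G x - n) ^ 2
          = 36 * (dr G x - M) ^ 2 + (12 * (6 * M - n) * (dr G x - M) + (6 * M - n) ^ 2) := by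
        intro x; ring
      rw [Finset.sum_congr rfl fun x _ => e1 x, Finset.sum_add_distrib, ← Finset.mul_sum,
        Finset.sum_add_distrib, ← Finset.mul_sum, Finset.sum_sub_distrib, ← hDsum, ← hW]
      simp only [Finset.sum_const, Finset.card_univ, nsmul_eq_mul]
      rw [← hn, hDM]; ring
    rw [h2, h3] at h1
    rw [hκ] at h1
    nlinarith [h1]
  -- lower bound for the total weight
  set b : ℝ := S - M with hb
  have hb0 : 0 ≤ b := by rw [hb]; linarith
  have hT : n * b ^ 3 ≤ ∑ x, (S - dr G x) ^ 3 := by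
    have h1 : ∑ x : V, (b ^ 3 - 3 * b ^ 2 * (dr G x - M)) ≤ ∑ x, (S - dr G x) ^ 3 := by
      refine Finset.sum_le_sum fun x _ => ?_
      have h2 : 0 ≤ S - dr G x := by have := hdeg x; linarith
      have h3 : 0 ≤ (S - dr G x + 2 * b) * (S - dr G x - b) ^ 2 :=
        mul_nonneg (by linarith) (sq_nonneg _)
      have e : (S - dr G x) ^ 3 - (b ^ 3 - 3 * b ^ 2 * (dr G x - M))
          = (S - dr G x + 2 * b) * (S - dr G x - b) ^ 2 := by rw [hb]; ring
      linarith
    have h2 : ∑ x : V, (b ^ 3 - 3 * b ^ 2 * (dr G x - M)) = n * b ^ 3 := by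
      rw [Finset.sum_sub_distrib, ← Finset.mul_sum, Finset.sum_sub_distrib, ← hDsum]
      simp only [Finset.sum_const, Finset.card_univ, nsmul_eq_mul]
      rw [← hn, hDM]; ring
    linarith
  -- upper bound for the edge sum
  set C : ℝ := 6 * S ^ 2 - 3 * S * n - 24 * S * M + n ^ 2 / 2 + 4 * M * n + 24 * M ^ 2 with hC
  have hE : ∑ x, dr G x * (S - 2 * dr G x) ^ 3 ≤ n * (M * (S - 2 * M) ^ 3) - C * W := by
    have h1 : ∀ x, dr G x * (S - 2 * dr G x) ^ 3
        ≤ M * (S - 2 * M) ^ 3 + (S - 2 * M) ^ 2 * (S - 8 * M) * (dr G x - M)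
          - C * (dr G x - M) ^ 2 := by
      intro x
      have h2 := hdeg x
      have h3 : 0 ≤ (dr G x - M) ^ 2 * ((n / 4 - dr G x) * (12 * S - 8 * (dr G x + n / 4)
          - 16 * M)) := by
        refine mul_nonneg (sq_nonneg _) (mul_nonneg (by linarith) (by linarith))
      have e : (M * (S - 2 * M) ^ 3 + (S - 2 * M) ^ 2 * (S - 8 * M) * (dr G x - M)
          - C * (dr G x - M) ^ 2) - dr G x * (S - 2 * dr G x) ^ 3
          = (dr G x - M) ^ 2 * ((n / 4 - dr G x) * (12 * S - 8 * (dr G x + n / 4)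
          - 16 * M)) := by rw [hC]; ring
      linarith
    calc ∑ x, dr G x * (S - 2 * dr G x) ^ 3
        ≤ ∑ x, (M * (S - 2 * M) ^ 3 + (S - 2 * M) ^ 2 * (S - 8 * M) * (dr G x - M)
          - C * (dr G x - M) ^ 2) := Finset.sum_le_sum fun x _ => h1 x
      _ = n * (M * (S - 2 * M) ^ 3) - C * W := by
          rw [Finset.sum_sub_distrib, Finset.sum_add_distrib, Finset.sum_const, ← Finset.mul_sum,
            ← Finset.mul_sum, Finset.sum_sub_distrib, ← hDsum, ← hW]
          simp only [Finset.sum_const, Finset.card_univ, nsmul_eq_mul]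
          rw [← hn, hDM]; ring
  have hpos : ∀ x, 0 ≤ Sw G - 2 * dr G x := by
    intro x; have := hdeg x; rw [← hS]; linarith
  have hmain := triple_sum hG hd hn0 hS0
  rw [← hS] at hmain
  have hedge := edge3_le G hpos
  rw [← hS] at hedge
  -- combine
  have hc : 0 ≤ C := by
    have := c1_nonneg (m := M / n) (s := S / n) (by rw [div_le_iff₀ hn0]; linarith)
      (by rw [le_div_iff₀ hn0]; linarith)
    have e : C = n ^ 2 * c1 (M / n) (S / n) := by
      rw [hC]; unfold c1; field_simp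
    rw [e]; positivity
  have h1 : 4 / 25 * (n * b ^ 3) ^ 2 ≤ S ^ 3 * (n * (M * (S - 2 * M) ^ 3) - C * W) := by
    calc 4 / 25 * (n * b ^ 3) ^ 2 ≤ 4 / 25 * (∑ x, (S - dr G x) ^ 3) ^ 2 := by
          have := pow_le_pow_left₀ (by positivity) hT 2
          linarith
      _ ≤ S ^ 3 * ∑ x, ∑ y, ad G x y * (S - dr G x - dr G y) ^ 3 := hmain
      _ ≤ S ^ 3 * (n * (M * (S - 2 * M) ^ 3) - C * W) :=
          mul_le_mul_of_nonneg_left (hedge.trans hE) (by positivity)
  have h2 : S ^ 3 * (n * (M * (S - 2 * M) ^ 3) - C * W)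
      ≤ S ^ 3 * (n * (M * (S - 2 * M) ^ 3) - C * (n * ((S - 6 * M) * (S - n)) / 9)) := by
    refine mul_le_mul_of_nonneg_left ?_ (by positivity)
    have := mul_le_mul_of_nonneg_left hWge hc
    linarith
  have h3 := h1.trans h2
  have hp := P3_pos (m := M / n) (s := S / n) (div_nonneg hM0 hn0.le)
    (by rw [div_le_iff₀ hn0]; linarith)
    (by rw [← mul_div_assoc]; exact div_le_div_of_nonneg_right hS6 hn0.le)
    (by rw [le_div_iff₀ hn0]; linarith) (by rw [div_le_iff₀ hn0]; linarith)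
  have hp2 : 0 < n ^ 8 * P3 (M / n) (S / n) := by positivity
  have e : n ^ 8 * P3 (M / n) (S / n) = 4 / 25 * (n * b ^ 3) ^ 2
      - S ^ 3 * (n * (M * (S - 2 * M) ^ 3) - C * (n * ((S - 6 * M) * (S - n)) / 9)) := by
    rw [hb, hC]; unfold P3 c1; field_simp
  rw [e] at hp2
  linarith

end

end Pool.Agent.SH51
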