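import Pool.Agent.SH51.Main

/-!
Sparse halves: the main theorem for independent sets with few neighbours (helper51).
-/

namespace Pool.Agent.SH51

open Finset

section
variable {V : Type*} [Fintype V] [DecidableEq V] (G : SimpleGraph V) [DecidableRel G.Adj]

/-- All fractional halves are dense: what we get from the failure of the conclusion. -/
def Dense : Prop := ∀ x : V → ℝ, (∀ v, 0 ≤ x v ∧ x v ≤ 1) →
  (Fintype.card V : ℝ) / 2 ≤ ∑ v, x v → (Fintype.card V : ℝ) ^ 2 / 25 < B G x x

/-- If there is no sparse half, all fractional halves are dense. -/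
lemma dense_of_not (h : ¬ ∃ S : Finset V, S.card = Fintype.card V / 2 ∧
    50 * (G.induce (S : Set V)).edgeSet.ncard ≤ Fintype.card V ^ 2) : Dense G := by
  intro x hx hs
  have hm : ((Fintype.card V / 2 : ℕ) : ℝ) ≤ ∑ v, x v := by
    refine le_trans ?_ hs
    exact Nat.cast_div_le
  obtain ⟨S, hS, hB⟩ := rounding G x (Fintype.card V / 2) hx hm
  rw [B_indicator] at hB
  push Not at h
  have h1 := h S hS
  have h2 : ((Fintype.card V : ℝ)) ^ 2 < 50 * ((G.induce (S : Set V)).edgeSet.ncard : ℝ) := by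
    exact_mod_cast h1
  linarith

variable {G}

/-- an independent set has fewer than `n/2` elements -/
lemma indep_lt (hd : Dense G) {I : Finset V} (hI : ∀ u ∈ I, ∀ v ∈ I, ¬ G.Adj u v) :
    (I.card : ℝ) < (Fintype.card V : ℝ) / 2 := by
  by_contra hcon
  push Not at hcon
  have h := hd (ind I) (fun v => ⟨ind_nonneg I v, ind_le_one I v⟩) (by rw [sum_ind]; exact hcon)
  rw [B_ind_indep G hI] at h
  have : (0 : ℝ) ≤ (Fintype.card V : ℝ) ^ 2 / 25 := by positivity
  linarith

/-- consequence of the mixture lemma -/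
lemma indep_ineq (hd : Dense G) {I : Finset V} (hI : ∀ u ∈ I, ∀ v ∈ I, ¬ G.Adj u v) :
    4 * (Fintype.card V : ℝ) * ((Fintype.card V : ℝ) - I.card) ^ 2
      < 25 * ((Fintype.card V : ℝ) - 2 * I.card) * B G (fun _ => 1) (fun _ => 1) := by
  have hlt := indep_lt hd hI
  set n : ℝ := (Fintype.card V : ℝ) with hn
  set i : ℝ := (I.card : ℝ) with hi
  have hi0 : 0 ≤ i := Nat.cast_nonneg _
  have hn0 : 0 < n := by linarith
  have hni : 0 < n - i := by linarith
  set w : ℝ := n / (2 * (n - i)) with hw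
  have hw0 : 0 < w := by positivity
  have hw1 : w < 1 := by
    rw [hw, div_lt_one (by positivity)]; linarith
  have hwn : w * (n - i) = n / 2 := by rw [hw]; field_simp
  have hsum1 : ∑ v, (1 - ind I v) = n - i := by
    rw [Finset.sum_sub_distrib, sum_ind]
    simp [hn, hi]
  have h1 := hd (fun v => 1 - w * (1 - ind I v)) (fun v => by
      have h0 := ind_nonneg I v
      have h1 := ind_le_one I v
      constructor <;> nlinarith) (by
      rw [Finset.sum_sub_distrib, ← Finset.mul_sum, hsum1, hwn]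
      simp only [Finset.sum_const, Finset.card_univ, nsmul_eq_mul, mul_one]
      linarith)
  have h2 := hd (fun v => w * (1 - ind I v)) (fun v => by
      have h0 := ind_nonneg I v
      have h1 := ind_le_one I v
      constructor <;> nlinarith) (by
      rw [← Finset.mul_sum, hsum1, hwn])
  have hmix := mixture G hI hw0.le hw1.le
  have h3 : n ^ 2 / 25 < w * (1 - w) * B G (fun _ => 1) (fun _ => 1) := by
    have e1 : w * (n ^ 2 / 25) < w * B G (fun v => 1 - w * (1 - ind I v))
        (fun v => 1 - w * (1 - ind I v)) := mul_lt_mul_of_pos_left h1 hw0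
    have e2 : (1 - w) * (n ^ 2 / 25) < (1 - w) * B G (fun v => w * (1 - ind I v))
        (fun v => w * (1 - ind I v)) := mul_lt_mul_of_pos_left h2 (by linarith)
    linarith
  have h4 : w * (1 - w) = n * (n - 2 * i) / (4 * (n - i) ^ 2) := by
    rw [hw]; field_simp; ring
  rw [h4] at h3
  have h5 : (n ^ 2 / 25) * (4 * (n - i) ^ 2)
      < n * (n - 2 * i) * B G (fun _ => 1) (fun _ => 1) := by
    have h6 : (n ^ 2 / 25) * (4 * (n - i) ^ 2)
        < (n * (n - 2 * i) / (4 * (n - i) ^ 2) * B G (fun _ => 1) (fun _ => 1))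
          * (4 * (n - i) ^ 2) := mul_lt_mul_of_pos_right h3 (by positivity)
    have h7 : (n * (n - 2 * i) / (4 * (n - i) ^ 2) * B G (fun _ => 1) (fun _ => 1))
          * (4 * (n - i) ^ 2) = n * (n - 2 * i) * B G (fun _ => 1) (fun _ => 1) := by
      field_simp
    rw [h7] at h6
    exact h6
  have h8 : n * (4 * n * (n - i) ^ 2)
      < n * (25 * (n - 2 * i) * B G (fun _ => 1) (fun _ => 1)) := by
    nlinarith [h5]
  exact lt_of_mul_lt_mul_left h8 hn0.le

/-- degree into a set -/
noncomputable def dg (G : SimpleGraph V) [DecidableRel G.Adj] (C : Finset V) (u : V) : ℕ :=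
  (C.filter fun v => G.Adj u v).card

lemma B_ind_eq (C : Finset V) : B G (ind C) (ind C) = ∑ u ∈ C, (dg G C u : ℝ) := by
  unfold B ind dg
  have h2 : ∀ u : V, (∑ v, if G.Adj u v then (if u ∈ C then (1 : ℝ) else 0) * (if v ∈ C then 1 else 0)
      else 0) = if u ∈ C then (((C.filter fun v => G.Adj u v).card : ℕ) : ℝ) else 0 := by
    intro u
    by_cases hu : u ∈ C
    · simp only [if_pos hu, one_mul]
      rw [Finset.card_filter]
      push_cast
      rw [← Finset.sum_filter_add_sum_filter_not Finset.univ (fun v => v ∈ C)]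
      have e1 : ∑ v ∈ Finset.univ.filter (fun v => ¬ v ∈ C),
          (if G.Adj u v then (if v ∈ C then (1 : ℝ) else 0) else 0) = 0 := by
        refine Finset.sum_eq_zero fun v hv => ?_
        rw [Finset.mem_filter] at hv
        simp [hv.2]
      rw [e1, add_zero]
      have e2 : Finset.univ.filter (fun v => v ∈ C) = C := by ext v; simp
      rw [e2]
      refine Finset.sum_congr rfl fun v hv => ?_
      simp [hv]
    · simp only [if_neg hu, zero_mul]
      simp
  rw [Finset.sum_congr rfl fun u _ => h2 u, ← Finset.sum_filter]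
  have e2 : Finset.univ.filter (fun v => v ∈ C) = C := by ext v; simp
  rw [e2]

/-- **Core statement**: an independent set `A` of size at least the average degree, or at least
`(1/2 - √2/5) n`, with at most `n/2` neighbours. -/
theorem core (hG : G.CliqueFree 3) (hd : Dense G) (A N : Finset V)
    (hA : ∀ u ∈ A, ∀ v ∈ A, ¬ G.Adj u v) (hN : ∀ v, v ∈ N ↔ ∃ u ∈ A, G.Adj u v)
    (hNn : (N.card : ℝ) ≤ (Fintype.card V : ℝ) / 2)
    (hs : B G (fun _ => 1) (fun _ => 1) ≤ A.card * (Fintype.card V : ℝ) ∨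
      (1 / 2 - Real.sqrt 2 / 5) * (Fintype.card V : ℝ) ≤ A.card) : False := by
  classical
  have ha2 := indep_lt hd hA
  set n : ℝ := (Fintype.card V : ℝ) with hn
  set a : ℝ := (A.card : ℝ) with ha
  set b : ℝ := (N.card : ℝ) with hb
  have ha0 : 0 ≤ a := Nat.cast_nonneg _
  have hb0 : 0 ≤ b := Nat.cast_nonneg _
  have hn0 : 0 < n := by linarith
  have hdisj : Disjoint A N := by
    rw [Finset.disjoint_left]
    intro v hvA hvN
    obtain ⟨u, hu, huv⟩ := (hN v).mp hvN
    exact hA u hu v hvA huv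
  set C : Finset V := (A ∪ N)ᶜ with hC
  have hmemC : ∀ v, v ∈ C ↔ v ∉ A ∧ v ∉ N := by
    intro v; rw [hC]; simp
  set c : ℝ := (C.card : ℝ) with hc
  have hcard : a + b + c = n := by
    rw [hc, hC, Finset.card_compl, Finset.card_union_of_disjoint hdisj,
      Nat.cast_sub (by rw [← Finset.card_union_of_disjoint hdisj]; exact Finset.card_le_univ _)]
    push_cast
    rw [ha, hb, hn]; ring
  set s : ℝ := n / 2 - a with hs'
  have hs0 : 0 < s := by linarith
  have hcs : s ≤ c := by linarith
  have hc0 : 0 < c := lt_of_lt_of_le hs0 hcs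
  -- fractional half on A ∪ C
  set σ : ℝ := s / c with hσ
  have hσ0 : 0 < σ := by positivity
  have hσ1 : σ ≤ 1 := by rw [hσ, div_le_one hc0]; exact hcs
  have hσc : σ * c = s := by rw [hσ]; field_simp
  have hAC : ∀ u ∈ A, ∀ v ∈ C, ¬ G.Adj u v := by
    intro u hu v hv huv
    exact ((hmemC v).mp hv).2 ((hN v).mpr ⟨u, hu, huv⟩)
  have h1 := hd (fun v => ind A v + σ * ind C v) (fun v => by
      have h0 := ind_nonneg A v
      have h1 := ind_nonneg C v
      refine ⟨by positivity, ?_⟩
      by_cases hv : v ∈ A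
      · have hvC : v ∉ C := fun h => ((hmemC v).mp h).1 hv
        unfold ind; simp [hv, hvC]
      · have h2 : ind A v = 0 := by unfold ind; simp [hv]
        rw [h2, zero_add]
        calc σ * ind C v ≤ 1 * 1 := mul_le_mul hσ1 (ind_le_one C v) h1 zero_le_one
          _ = 1 := one_mul 1) (by
      rw [Finset.sum_add_distrib, ← Finset.mul_sum, sum_ind, sum_ind, ← hc, ← ha, hσc]
      linarith)
  have h2 : B G (fun v => ind A v + σ * ind C v) (fun v => ind A v + σ * ind C v)
      ≤ σ ^ 2 * B G (ind C) (ind C) := by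
    rw [← B_smul]
    refine B_le_of_adj G fun u v huv => ?_
    have hz : ∀ p q, G.Adj p q → p ∈ A → ind A q + σ * ind C q = 0 := by
      intro p q hpq hp
      have e1 : q ∉ A := fun h => hA p hp q h hpq
      have e2 : q ∉ C := fun h => hAC p hp q h hpq
      unfold ind; simp [e1, e2]
    have hnn : 0 ≤ σ * ind C u * (σ * ind C v) :=
      mul_nonneg (mul_nonneg hσ0.le (ind_nonneg C u)) (mul_nonneg hσ0.le (ind_nonneg C v))
    by_cases hu : u ∈ A
    · rw [hz u v huv hu, mul_zero]; exact hnn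
    · by_cases hv : v ∈ A
      · rw [hz v u huv.symm hv, zero_mul]; exact hnn
      · have e1 : ind A u = 0 := by unfold ind; simp [hu]
        have e2 : ind A v = 0 := by unfold ind; simp [hv]
        rw [e1, e2, zero_add, zero_add]
  have h3 : n ^ 2 / 25 < σ ^ 2 * B G (ind C) (ind C) := lt_of_lt_of_le h1 h2
  -- vertex of maximum degree in C
  have hCne : C.Nonempty := by
    rw [← Finset.card_pos]
    have : (0 : ℝ) < (C.card : ℝ) := hc0
    exact_mod_cast this
  obtain ⟨u0, hu0, hmax⟩ := Finset.exists_max_image C (fun u => dg G C u) hCne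
  set D : Finset V := C.filter fun v => G.Adj u0 v with hD
  set t : ℝ := (D.card : ℝ) with ht
  have ht0 : 0 ≤ t := Nat.cast_nonneg _
  have hdgt : ∀ u ∈ C, (dg G C u : ℝ) ≤ t := by
    intro u hu
    have := hmax u hu
    have h' : dg G C u0 = D.card := rfl
    rw [h'] at this
    rw [ht]
    exact_mod_cast this
  have hR : B G (ind C) (ind C) ≤ c * t := by
    rw [B_ind_eq]
    calc ∑ u ∈ C, (dg G C u : ℝ) ≤ ∑ u ∈ C, t := Finset.sum_le_sum hdgt
      _ = c * t := by rw [Finset.sum_const, nsmul_eq_mul]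
  have hDind : ∀ u ∈ D, ∀ v ∈ D, ¬ G.Adj u v := by
    intro u hu v hv huv
    rw [hD, Finset.mem_filter] at hu hv
    have : ({u0, u, v} : Finset V) = {u0, u, v} := rfl
    exact hG {u0, u, v} (SimpleGraph.is3Clique_triple_iff.mpr ⟨hu.2, hv.2, huv⟩)
  have hDC : D ⊆ C := Finset.filter_subset _ _
  -- n² < 25 s t
  have h4 : n ^ 2 < 25 * (s * t) := by
    have e1 : σ ^ 2 * B G (ind C) (ind C) ≤ σ ^ 2 * (c * t) :=
      mul_le_mul_of_nonneg_left hR (by positivity)
    have e2 : σ ^ 2 * (c * t) = σ * (s * t) := by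
      calc σ ^ 2 * (c * t) = σ * ((σ * c) * t) := by ring
        _ = σ * (s * t) := by rw [hσc]
    have e3 : σ * (s * t) ≤ 1 * (s * t) :=
      mul_le_mul_of_nonneg_right hσ1 (mul_nonneg hs0.le ht0)
    nlinarith
  -- the independent set A ∪ D
  have hADd : Disjoint A D := by
    rw [Finset.disjoint_left]
    intro v hvA hvD
    exact ((hmemC v).mp (hDC hvD)).1 hvA
  have hI : ∀ u ∈ A ∪ D, ∀ v ∈ A ∪ D, ¬ G.Adj u v := by
    intro u hu v hv huv
    rw [Finset.mem_union] at hu hv
    rcases hu with hu | hu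
    · rcases hv with hv | hv
      · exact hA u hu v hv huv
      · exact hAC u hu v (hDC hv) huv
    · rcases hv with hv | hv
      · exact hAC v hv u (hDC hu) huv.symm
      · exact hDind u hu v hv huv
  have hIcard : ((A ∪ D).card : ℝ) = a + t := by
    rw [Finset.card_union_of_disjoint hADd]; push_cast; rfl
  have h5 := indep_lt hd hI
  have h6 := indep_ineq hd hI
  rw [hIcard, ← hn] at h5 h6
  rcases hs with hs | hs
  · -- |A| at least the average degree
    have h7 : 4 * n * (n - (a + t)) ^ 2 < 25 * (n - 2 * (a + t)) * (a * n) := by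
      refine lt_of_lt_of_le h6 ?_
      exact mul_le_mul_of_nonneg_left hs (by linarith)
    have h8 : 4 * (n - (a + t)) ^ 2 < 25 * (n - 2 * (a + t)) * a := by
      have : n * (4 * (n - (a + t)) ^ 2) < n * (25 * (n - 2 * (a + t)) * a) := by nlinarith [h7]
      exact lt_of_mul_lt_mul_left this hn0.le
    -- normalise
    have hy : 0 < (s - t) / n := div_pos (by linarith) hn0
    refine final_ineq (s := s / n) (y := (s - t) / n) hy (div_pos hs0 hn0) ?_ ?_
    · have e1 : s / n * ((s - t) / n) = (s * (s - t)) / n ^ 2 := by field_simp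
      have e2 : (s / n) ^ 2 - 1 / 25 = (s ^ 2 - n ^ 2 / 25) / n ^ 2 := by field_simp
      rw [e1, e2]
      refine div_lt_div_of_pos_right ?_ (by positivity)
      nlinarith [h4]
    · have e1 : (1 + 2 * ((s - t) / n)) ^ 2 = (n + 2 * (s - t)) ^ 2 / n ^ 2 := by field_simp
      have e2 : 25 * (1 - 2 * (s / n)) * ((s - t) / n) = (25 * (n - 2 * s) * (s - t)) / n ^ 2 := by
        field_simp
      rw [e1, e2]
      refine div_lt_div_of_pos_right ?_ (by positivity)
      have e3 : n - (a + t) = (n + 2 * (s - t)) / 2 := by rw [hs']; ring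
      have e4 : n - 2 * (a + t) = 2 * (s - t) := by rw [hs']; ring
      have e5 : a = (n - 2 * s) / 2 := by rw [hs']; ring
      rw [e3, e4] at h8
      have e6 : (2 * (s - t)) * a = (s - t) * (n - 2 * s) := by rw [e5]; ring
      nlinarith [h8, e6]
  · -- Mantel in C
    have hMantel : B G (ind C) (ind C) ≤ c ^ 2 / 2 := by
      have g1 : B G (ind C) (ind C) = ∑ u ∈ D, (dg G C u : ℝ) + ∑ u ∈ C \ D, (dg G C u : ℝ) := by
        rw [B_ind_eq, add_comm, Finset.sum_sdiff hDC]
      have g2 : ∑ u ∈ D, (dg G C u : ℝ) ≤ ∑ u ∈ C \ D, (dg G C u : ℝ) := by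
        have k1 : ∀ u ∈ D, (dg G C u : ℝ) = ∑ v ∈ C \ D, if G.Adj u v then (1 : ℝ) else 0 := by
          intro u hu
          unfold dg
          rw [Finset.card_filter]
          push_cast
          rw [← Finset.sum_sdiff hDC]
          have : ∑ v ∈ D, (if G.Adj u v then (1 : ℝ) else 0) = 0 := by
            refine Finset.sum_eq_zero fun v hv => ?_
            simp [hDind u hu v hv]
          rw [this, add_zero]
        rw [Finset.sum_congr rfl k1, Finset.sum_comm]
        refine Finset.sum_le_sum fun v hv => ?_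
        unfold dg
        rw [Finset.card_filter]
        push_cast
        calc ∑ u ∈ D, (if G.Adj u v then (1 : ℝ) else 0)
            = ∑ u ∈ D, (if G.Adj v u then (1 : ℝ) else 0) := by
              refine Finset.sum_congr rfl fun u _ => ?_
              simp only [G.adj_comm]
          _ ≤ ∑ u ∈ C, (if G.Adj v u then (1 : ℝ) else 0) := by
              refine Finset.sum_le_sum_of_subset_of_nonneg hDC fun u _ _ => ?_
              split_ifs <;> norm_num
      have g3 : ∑ u ∈ C \ D, (dg G C u : ℝ) ≤ (c - t) * t := by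
        calc ∑ u ∈ C \ D, (dg G C u : ℝ) ≤ ∑ u ∈ C \ D, t :=
              Finset.sum_le_sum fun u hu => hdgt u (Finset.mem_sdiff.mp hu).1
          _ = (c - t) * t := by
              rw [Finset.sum_const, nsmul_eq_mul, Finset.card_sdiff_of_subset hDC,
                Nat.cast_sub (Finset.card_le_card hDC)]
      nlinarith [g1, g2, g3, sq_nonneg (c - 2 * t)]
    have h7 : n ^ 2 / 25 < s ^ 2 / 2 := by
      have e1 : σ ^ 2 * B G (ind C) (ind C) ≤ σ ^ 2 * (c ^ 2 / 2) :=
        mul_le_mul_of_nonneg_left hMantel (by positivity)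
      have e2 : σ ^ 2 * (c ^ 2 / 2) = s ^ 2 / 2 := by
        calc σ ^ 2 * (c ^ 2 / 2) = (σ * c) ^ 2 / 2 := by ring
          _ = s ^ 2 / 2 := by rw [hσc]
      linarith
    have h8 : s ≤ Real.sqrt 2 / 5 * n := by rw [hs']; linarith
    have h9 : s ^ 2 ≤ (Real.sqrt 2 / 5 * n) ^ 2 := pow_le_pow_left₀ hs0.le h8 2
    have h10 : (Real.sqrt 2 / 5 * n) ^ 2 = 2 / 25 * n ^ 2 := by
      have : Real.sqrt 2 ^ 2 = 2 := Real.sq_sqrt (by norm_num)
      calc (Real.sqrt 2 / 5 * n) ^ 2 = Real.sqrt 2 ^ 2 / 25 * n ^ 2 := by ring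
        _ = 2 / 25 * n ^ 2 := by rw [this]
    linarith

end

end Pool.Agent.SH51
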