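import Pool.Agent.SH51.Basic

/-!
Sparse halves: independent sets with few neighbours (helper51).
-/

namespace Pool.Agent.SH51

open Finset

/-- the one-variable inequality -/
lemma poly_pos {s : ℝ} (h1 : 1 / 5 ≤ s) (h2 : s ≤ 17 / 50) :
    0 < 54 * s ^ 4 - 21 * s ^ 3 - 33 / 25 * s ^ 2 + 21 / 25 * s + 4 / 625 := by
  have h3 : 0 ≤ (s - 1 / 5) * (17 / 50 - s) := mul_nonneg (by linarith) (by linarith)
  nlinarith [sq_nonneg (s ^ 2 - 7 / 36 * s - 7 / 250), sq_nonneg (s - 57 / 200),
    sq_nonneg (s ^ 2 - 7 / 36 * s - 3 / 100), h3, mul_nonneg h3 (by linarith : (0 : ℝ) ≤ s),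
    mul_nonneg h3 (sq_nonneg s)]

/-- the final inequality, normalised -/
lemma final_ineq {s y : ℝ} (hy : 0 < y) (hs : 0 < s) (h1 : s * y < s ^ 2 - 1 / 25)
    (h2 : (1 + 2 * y) ^ 2 < 25 * (1 - 2 * s) * y) : False := by
  set z : ℝ := s * y with hz
  have hz0 : 0 < z := mul_pos hs hy
  have h3 : s ^ 2 - (21 - 50 * s) * (s * z) + 4 * z ^ 2 < 0 := by
    have h4 : s ^ 2 * (1 + 2 * y) ^ 2 < s ^ 2 * (25 * (1 - 2 * s) * y) :=
      mul_lt_mul_of_pos_left h2 (by positivity)
    have e1 : s ^ 2 * (1 + 2 * y) ^ 2 = (s + 2 * z) ^ 2 := by rw [hz]; ring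
    have e2 : s ^ 2 * (25 * (1 - 2 * s) * y) = 25 * (1 - 2 * s) * (s * z) := by rw [hz]; ring
    rw [e1, e2] at h4
    nlinarith [h4]
  have hsz : 0 < s * z := mul_pos hs hz0
  rcases le_total (17 / 50) s with h5 | h5
  · have h6 : (21 - 50 * s) * (s * z) ≤ 4 * (s * z) :=
      mul_le_mul_of_nonneg_right (by linarith) hsz.le
    nlinarith [sq_nonneg (s - 2 * z), h6]
  · have h7 : 1 / 5 ≤ s := by
      by_contra hcon
      push Not at hcon
      nlinarith [h1, hz0]
    have hp := poly_pos h7 h5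
    have h8 : 0 ≤ (s ^ 2 - 1 / 25 - z) * ((21 - 50 * s) * s - 4 * (z + (s ^ 2 - 1 / 25))) := by
      refine mul_nonneg (by linarith) ?_
      nlinarith [h1, mul_nonneg (by linarith : (0 : ℝ) ≤ s) (by linarith : (0 : ℝ) ≤ 17 / 50 - s)]
    nlinarith [h3, h8, hp]

section
variable {V : Type*} [Fintype V] [DecidableEq V] (G : SimpleGraph V) [DecidableRel G.Adj]

/-- indicator function of a finite set -/
def ind (S : Finset V) : V → ℝ := fun v => if v ∈ S then 1 else 0

lemma ind_nonneg (S : Finset V) (v : V) : 0 ≤ ind S v := by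
  unfold ind; split_ifs <;> norm_num

lemma ind_le_one (S : Finset V) (v : V) : ind S v ≤ 1 := by
  unfold ind; split_ifs <;> norm_num

lemma sum_ind (S : Finset V) : ∑ v, ind S v = S.card := by
  unfold ind; simp

lemma B_nonneg {x : V → ℝ} (hx : ∀ v, 0 ≤ x v) : 0 ≤ B G x x := by
  unfold B
  refine Finset.sum_nonneg fun u _ => Finset.sum_nonneg fun v _ => ?_
  split_ifs
  · exact mul_nonneg (hx u) (hx v)
  · exact le_refl _

/-- comparison of the forms through adjacent pairs -/
lemma B_le_of_adj {x y : V → ℝ} (h : ∀ u v, G.Adj u v → x u * x v ≤ y u * y v) :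
    B G x x ≤ B G y y := by
  unfold B
  refine Finset.sum_le_sum fun u _ => Finset.sum_le_sum fun v _ => ?_
  by_cases huv : G.Adj u v
  · rw [if_pos huv, if_pos huv]; exact h u v huv
  · rw [if_neg huv, if_neg huv]

lemma B_smul (x : V → ℝ) (c : ℝ) :
    B G (fun v => c * x v) (fun v => c * x v) = c ^ 2 * B G x x := by
  unfold B
  rw [Finset.mul_sum]
  refine Finset.sum_congr rfl fun u _ => ?_
  rw [Finset.mul_sum]
  refine Finset.sum_congr rfl fun v _ => ?_
  split_ifs
  · ring
  · ring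

lemma B_one : B G (fun _ => 1) (fun _ => 1) = 2 * (G.edgeSet.ncard : ℝ) := by
  classical
  have h1 : (2 : ℝ) * (G.edgeSet.ncard : ℝ) = ((2 * G.edgeFinset.card : ℕ) : ℝ) := by
    rw [Set.ncard_eq_toFinset_card']
    push_cast
    rfl
  rw [h1, ← SimpleGraph.sum_degrees_eq_twice_card_edges]
  push_cast
  unfold B
  refine Finset.sum_congr rfl fun u _ => ?_
  rw [← SimpleGraph.card_neighborFinset_eq_degree]
  rw [SimpleGraph.neighborFinset_eq_filter, Finset.card_filter]
  push_cast
  refine Finset.sum_congr rfl fun v _ => ?_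
  simp

/-- an independent set contributes nothing -/
lemma B_ind_indep {I : Finset V} (hI : ∀ u ∈ I, ∀ v ∈ I, ¬ G.Adj u v) :
    B G (ind I) (ind I) = 0 := by
  unfold B
  refine Finset.sum_eq_zero fun u _ => Finset.sum_eq_zero fun v _ => ?_
  split_ifs with h
  · unfold ind
    by_cases hu : u ∈ I
    · by_cases hv : v ∈ I
      · exact absurd h (hI u hu v hv)
      · simp [hv]
    · simp [hu]
  · rfl

/-- Key mixture: for an independent set `I` with `|I| < n/2`. -/
lemma mixture {I : Finset V} (hI : ∀ u ∈ I, ∀ v ∈ I, ¬ G.Adj u v) {w : ℝ} (h0 : 0 ≤ w)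
    (h1 : w ≤ 1) :
    w * B G (fun v => 1 - w * (1 - ind I v)) (fun v => 1 - w * (1 - ind I v))
      + (1 - w) * B G (fun v => w * (1 - ind I v)) (fun v => w * (1 - ind I v))
      ≤ w * (1 - w) * B G (fun _ => 1) (fun _ => 1) := by
  unfold B
  simp only [Finset.mul_sum]
  rw [← Finset.sum_add_distrib]
  refine Finset.sum_le_sum fun u _ => ?_
  rw [← Finset.sum_add_distrib]
  refine Finset.sum_le_sum fun v _ => ?_
  by_cases h : G.Adj u v
  · simp only [if_pos h]
    have hz : ind I u * ind I v = 0 := by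
      unfold ind
      by_cases hu : u ∈ I
      · by_cases hv : v ∈ I
        · exact absurd h (hI u hu v hv)
        · simp [hv]
      · simp [hu]
    have key : w * ((1 - w * (1 - ind I u)) * (1 - w * (1 - ind I v)))
        + (1 - w) * (w * (1 - ind I u) * (w * (1 - ind I v)))
        = w * (1 - w) * (1 * 1) + w ^ 2 * (ind I u * ind I v) := by ring
    rw [key, hz]; simp
  · simp only [if_neg h]
    simp

end

end Pool.Agent.SH51
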